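import Mathlib
import Pool.Agent.Work.MP_787500_nt.KI.Ram

/-!
# The reference condition at a place with a stable Lagrangian subspace: definitions (fixed, do not change)

`P` is the local group, `U = F ^ n`, `B` the representation of `P` with values in the symplectic group, `ε` the quadratic
character, `W` a stable Lagrangian subspace of `U`.
-/

set_option autoImplicit false
set_option linter.unusedSectionVars false

namespace Pool.Agent.Work.MP_787500_nt.OR

open Matrix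
open Pool.Agent.Work.MP_787500_nt.GP (A0 hf IsAct d0 d1 d2 tw cup11)
open Pool.Agent.Work.MP_787500_nt.KR (FSys Sm1 Sm2 IsChar Smooth Z1 Z2 B2 LocH Pair LDual zM)
open Pool.Agent.Work.MP_787500_nt.KT hiding Str Rel Sel KH Ai IsP cc ff TT
open Pool.Agent.Work.MP_787500_nt.KS (hfT)

section ind

variable {P : Type*} [Group P] (T : FSys P) {O : Type*} [CommRing O] {V : Type*} [AddCommGroup V]
  [Module O V] {σ : P → V → V}

/-- the cocycles with values in `W`, up to coboundaries -/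
def indW (act : IsAct σ) (lin : ∀ g (a : O) m, σ g (a • m) = a • σ g m) (W : Submodule O V) :
    Submodule O (P → V) where
  carrier := {x | Z1 T σ x ∧ ∃ m, ∀ d, x d - d0 σ m d ∈ W}
  add_mem' := by
    rintro x y ⟨h1, m, h2⟩ ⟨h1', m', h2'⟩
    refine ⟨(zM T act lin).add_mem h1 h1', m + m', fun d => ?_⟩
    have e : (x + y) d - d0 σ (m + m') d = (x d - d0 σ m d) + (y d - d0 σ m' d) := by
      simp only [Pi.add_apply, d0, act.add]
      abel
    rw [e]
    exact W.add_mem (h2 d) (h2' d)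
  zero_mem' := ⟨(zM (O := O) T act lin).zero_mem, 0, fun d => by
    have e : (0 : P → V) d - d0 σ 0 d = 0 := by simp [d0, act.zero]
    rw [e]
    exact W.zero_mem⟩
  smul_mem' := by
    rintro a x ⟨h1, m, h2⟩
    refine ⟨(zM T act lin).smul_mem a h1, a • m, fun d => ?_⟩
    have e : (a • x) d - d0 σ (a • m) d = a • (x d - d0 σ m d) := by
      simp only [Pi.smul_apply, d0, lin, smul_sub]
    rw [e]
    exact W.smul_mem a (h2 d)

theorem mem_indW {act : IsAct σ} {lin : ∀ g (a : O) m, σ g (a • m) = a • σ g m}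
    {W : Submodule O V} {x : P → V} :
    x ∈ indW T act lin W ↔ Z1 T σ x ∧ ∃ m, ∀ d, x d - d0 σ m d ∈ W := Iff.rfl

/-- the vectors fixed modulo `W` -/
def fixV (act : IsAct σ) (lin : ∀ g (a : O) m, σ g (a • m) = a • σ g m) (W : Submodule O V) :
    Submodule O V where
  carrier := {v | ∀ d, σ d v - v ∈ W}
  add_mem' := by
    intro v w hv hw d
    have e : σ d (v + w) - (v + w) = (σ d v - v) + (σ d w - w) := by
      rw [act.add]
      abel
    rw [e]
    exact W.add_mem (hv d) (hw d)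
  zero_mem' := fun d => by
    rw [act.zero, sub_zero]
    exact W.zero_mem
  smul_mem' := by
    intro a v hv d
    have e : σ d (a • v) - a • v = a • (σ d v - v) := by rw [lin, smul_sub]
    rw [e]
    exact W.smul_mem a (hv d)

theorem mem_fixV {act : IsAct σ} {lin : ∀ g (a : O) m, σ g (a • m) = a • σ g m}
    {W : Submodule O V} {v : V} : v ∈ fixV act lin W ↔ ∀ d, σ d v - v ∈ W := Iff.rfl

end ind

variable {F : Type*} [Field F] {n : ℕ} [Sy F n]

/-- a subspace that is its own annihilator -/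
def IsLg (W : Submodule F (Fin n → F)) : Prop := ∀ x, x ∈ W ↔ ∀ y ∈ W, ee x y = 0

/-- the vectors fixed modulo `W` by the elements of `S` -/
def fixW [CharP F 2] {P : Type*} (B : P → Matrix (Fin n) (Fin n) F) (S : Set P)
    (W : Submodule F (Fin n → F)) : Submodule F (Fin n → F) where
  carrier := {v | ∀ d ∈ S, B d *ᵥ v + v ∈ W}
  add_mem' := by
    intro v w hv hw d hd
    have e : B d *ᵥ (v + w) + (v + w) = (B d *ᵥ v + v) + (B d *ᵥ w + w) := by
      rw [mulVec_add]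
      abel
    rw [e]
    exact W.add_mem (hv d hd) (hw d hd)
  zero_mem' := fun d _ => by
    rw [mulVec_zero, add_zero]
    exact W.zero_mem
  smul_mem' := by
    intro a v hv d hd
    have e : B d *ᵥ (a • v) + a • v = a • (B d *ᵥ v + v) := by
      rw [mulVec_smul, smul_add]
    rw [e]
    exact W.smul_mem a (hv d hd)

theorem mem_fixW [CharP F 2] {P : Type*} {B : P → Matrix (Fin n) (Fin n) F} {S : Set P}
    {W : Submodule F (Fin n → F)} {v : Fin n → F} :
    v ∈ fixW B S W ↔ ∀ d ∈ S, B d *ᵥ v + v ∈ W := Iff.rfl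

variable {P : Type*} [Group P]

/-- `W` is Lagrangian and stable -/
structure Ord (B : P →* Matrix (Fin n) (Fin n) F) (W : Submodule F (Fin n → F)) : Prop where
  sp : ∀ g, IsSp (B g)
  st : ∀ g, ∀ x ∈ W, B g *ᵥ x ∈ W
  lg : IsLg W

variable [Finite F] [CharP F 2] [Algebra (ZMod 2) F]

/-- the consequences of local duality for `W` and `U / W` -/
structure OD (T : FSys P) (iv : (P → P → A0) → A0) (B : P →* Matrix (Fin n) (Fin n) F)
    (W : Submodule F (Fin n → F)) : Prop where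
  one : ∀ x, Z1 T (KT.act B) x → (∀ y, Z1 T (KT.act B) y → (∀ g, y g ∈ W) →
    iv (cup11 (KT.act B) BU y x) = 0) → ∃ m : Fin n → F, ∀ g, x g + (B g *ᵥ m + m) ∈ W
  two : ∀ f : P → P → (Fin n → F), Sm2 T f → (∀ s t, f s t ∈ W) →
    (∀ s t u, B s *ᵥ f t u + f (s * t) u + f s (t * u) + f s t = 0) →
    (∀ z, (∀ g, B g *ᵥ z + z ∈ W) → iv (fun s t => hfT (ee z (f s t))) = 0) →
    ∃ a : P → (Fin n → F), Sm1 T a ∧ (∀ g, a g ∈ W) ∧
      ∀ s t, f s t = a s + B s *ᵥ a t + a (s * t)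

/-- the condition for pairs induced by `W` -/
def LInd (T : FSys P) (B : P →* Matrix (Fin n) (Fin n) F) (ε : P → ZMod 2)
    (W : Submodule F (Fin n → F)) (L : Submodule F ((P → Fin n → F) × (P → Fin n → F))) : Prop :=
  ∀ p, p ∈ L ↔ (Z1 T (KT.act B) p.2 ∧ Sm1 T p.1 ∧
    IsLift (B : P → Matrix (Fin n) (Fin n) F) ε p.1 p.2) ∧
    ∃ k m : Fin n → F, ∀ d, p.1 d + (B d *ᵥ (k + ε d • m) + k) ∈ W ∧ p.2 d + (B d *ᵥ m + m) ∈ W

/-- the correction class, with values in `W`: `w₀` is a vector with `qq x = ee w₀ x ^ 2` on `W` -/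
noncomputable def k1 (w₀ : Fin n → F) (g : Matrix (Fin n) (Fin n) F) : Fin n → F :=
  kk g + (g *ᵥ w₀ + w₀)

/-- smooth homomorphisms with values in `F` -/
def homS (F : Type*) [Field F] (T : FSys P) : Submodule F (P → F) where
  carrier := {c | Sm1 T c ∧ ∀ g h, c (g * h) = c g + c h}
  add_mem' := by
    rintro c c' ⟨⟨W, hW, h1⟩, h2⟩ ⟨⟨W', hW', h1'⟩, h2'⟩
    refine ⟨⟨W ⊓ W', T.inf hW hW', fun g w hw => ?_⟩, fun g h => ?_⟩
    · rw [Pi.add_apply, Pi.add_apply, h1 g w hw.1, h1' g w hw.2]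
    · rw [Pi.add_apply, Pi.add_apply, Pi.add_apply, h2, h2']
      ring
  zero_mem' := by
    obtain ⟨W, hW⟩ := T.ex
    exact ⟨⟨W, hW, fun _ _ _ => rfl⟩, fun _ _ => (add_zero _).symm⟩
  smul_mem' := by
    rintro a c ⟨⟨W, hW, h1⟩, h2⟩
    refine ⟨⟨W, hW, fun g w hw => ?_⟩, fun g h => ?_⟩
    · rw [Pi.smul_apply, Pi.smul_apply, h1 g w hw]
    · rw [Pi.smul_apply, Pi.smul_apply, Pi.smul_apply, h2, smul_add]

theorem mem_homS {T : FSys P} {c : P → F} :
    c ∈ homS F T ↔ Sm1 T c ∧ ∀ g h, c (g * h) = c g + c h := Iff.rfl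

/-- `lam` is the invariant of the cup product with `ε`, with values in `F` -/
def IsLam (T : FSys P) (iv : (P → P → A0) → A0) (ε : P → ZMod 2) (lam : homS F T →ₗ[F] F) : Prop :=
  ∀ (α : F) (c : homS F T), iv (fun s t => hfT (ε s • (α * c.1 t))) = hfT (α * lam c)

/-- the form on the vectors fixed modulo `W` and the functional of the correction class -/
structure FM (iv : (P → P → A0) → A0) (B : P →* Matrix (Fin n) (Fin n) F) (ε : P → ZMod 2)
    (W : Submodule F (Fin n → F)) (w₀ : Fin n → F)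
    (M : fixW B Set.univ W →ₗ[F] fixW B Set.univ W →ₗ[F] F) (lm : fixW B Set.univ W →ₗ[F] F) :
    Prop where
  val : ∀ (α : F) (m z : fixW B Set.univ W),
    iv (fun s t => hfT (ε s • (α * ee z.1 (B t *ᵥ m.1 + m.1)))) = hfT (α * M m z)
  vlm : ∀ (α : F) (z : fixW B Set.univ W),
    iv (fun s t => hfT (ε s • (α * ee z.1 (k1 w₀ (B t))))) = hfT (α * lm z)
  symm : ∀ x y, M x y = M y x
  diag : ∀ x, M x x = lm x ^ 2

/-- the pairs fixed modulo `W × W` -/
def JW (B : P →* Matrix (Fin n) (Fin n) F) (ε : P → ZMod 2) (W : Submodule F (Fin n → F)) :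
    Submodule F ((Fin n → F) × (Fin n → F)) where
  carrier := {v | ∀ d, B d *ᵥ (v.1 + ε d • v.2) + v.1 ∈ W ∧ B d *ᵥ v.2 + v.2 ∈ W}
  add_mem' := by
    intro v w hv hw d
    have e1 : B d *ᵥ ((v + w).1 + ε d • (v + w).2) + (v + w).1 =
        (B d *ᵥ (v.1 + ε d • v.2) + v.1) + (B d *ᵥ (w.1 + ε d • w.2) + w.1) := by
      rw [Prod.fst_add, Prod.snd_add, smul_add, mulVec_add, mulVec_add, mulVec_add, mulVec_add,
        mulVec_add]
      abel
    have e2 : B d *ᵥ (v + w).2 + (v + w).2 = (B d *ᵥ v.2 + v.2) + (B d *ᵥ w.2 + w.2) := by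
      rw [Prod.snd_add, mulVec_add]
      abel
    rw [e1, e2]
    exact ⟨W.add_mem (hv d).1 (hw d).1, W.add_mem (hv d).2 (hw d).2⟩
  zero_mem' := fun d => by
    have e1 : B d *ᵥ ((0 : (Fin n → F) × (Fin n → F)).1 + ε d • (0 : (Fin n → F) × (Fin n → F)).2) +
        (0 : (Fin n → F) × (Fin n → F)).1 = 0 := by
      rw [Prod.fst_zero, Prod.snd_zero, smul_zero, add_zero, add_zero, mulVec_zero]
    have e2 : B d *ᵥ (0 : (Fin n → F) × (Fin n → F)).2 + (0 : (Fin n → F) × (Fin n → F)).2 = 0 := by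
      rw [Prod.snd_zero, mulVec_zero, add_zero]
    rw [e1, e2]
    exact ⟨W.zero_mem, W.zero_mem⟩
  smul_mem' := by
    intro a v hv d
    have e1 : B d *ᵥ ((a • v).1 + ε d • (a • v).2) + (a • v).1 =
        a • (B d *ᵥ (v.1 + ε d • v.2) + v.1) := by
      rw [Prod.smul_fst, Prod.smul_snd, smul_comm (ε d) a v.2, ← smul_add, mulVec_smul, smul_add]
    have e2 : B d *ᵥ (a • v).2 + (a • v).2 = a • (B d *ᵥ v.2 + v.2) := by
      rw [Prod.smul_snd, mulVec_smul, smul_add]
    rw [e1, e2]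
    exact ⟨W.smul_mem a (hv d).1, W.smul_mem a (hv d).2⟩

theorem mem_JW {B : P →* Matrix (Fin n) (Fin n) F} {ε : P → ZMod 2} {W : Submodule F (Fin n → F)}
    {v : (Fin n → F) × (Fin n → F)} : v ∈ JW B ε W ↔
      ∀ d, B d *ᵥ (v.1 + ε d • v.2) + v.1 ∈ W ∧ B d *ᵥ v.2 + v.2 ∈ W := Iff.rfl

/-- `W × W` in the coordinates of `U × U` -/
def W2 {Γ : Type*} [Group Γ] (A : Γ →* Matrix (Fin n) (Fin n) F) (c : Γ)
    (W : Submodule F (Fin n → F)) : Submodule F ((Fin n → F) × (Fin n → F)) :=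
  W.prod (W.comap (Matrix.mulVecLin (A c)))

theorem mem_W2 {Γ : Type*} [Group Γ] {A : Γ →* Matrix (Fin n) (Fin n) F} {c : Γ}
    {W : Submodule F (Fin n → F)} {v : (Fin n → F) × (Fin n → F)} :
    v ∈ W2 A c W ↔ v.1 ∈ W ∧ A c *ᵥ v.2 ∈ W := Iff.rfl

end Pool.Agent.Work.MP_787500_nt.OR
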