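import Mathlib
import Pool.Agent.Work.MP_787500_nt.OR.Defs
import Pool.Agent.Work.MP_787500_nt.QS.Th
/-!
# Module Lam (size M): the invariant of the cup product of `ε` with a homomorphism, with values in `F`

* `eps_Z2`: for a smooth homomorphism `c : P → F` the function `(s, t) ↦ hfT (ε s • c t)` is a smooth 2-cocycle for `tw χ` (`smul_hfT (Lc.char.odd _)`, compare `KS.hf_cup_Z2`).
* `exists_lam`: for fixed `c` the map `α ↦ iv (hfT (ε s • (α * c t)))` is additive (`Lc.add`, `eps_Z2` for `α • c`), so it is `hfT (α * b)` (`KS.exists_mul`); `lam c = b` is additive and linear in `c` by `KS.hfT_eq`.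
* `lam_sq`: `α = γ ^ 2` (`rt_sq`): `hfT (ε s • (γ ^ 2 * c t ^ 2)) = hfT (ε s • (γ * c t))` (`hfT_eps_sq`, `mul_pow`), so `hfT (γ ^ 2 * lam c1) = hfT (γ * lam c) = hfT (γ ^ 2 * lam c ^ 2)` (`hfT_sq`).
* `lam_cob`: for `α`: `hfT (ε s • (α * c t)) = hfT (α * b s) + hfT (α * b t) + hfT (α * b (s * t))` is the coboundary of `hfT (α * b)`: `Lc.cob`.
-/

set_option autoImplicit false
set_option linter.unusedSectionVars false

namespace Pool.Agent.Work.MP_787500_nt.OR

open Matrix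
open Pool.Agent.Work.MP_787500_nt.GP (A0 hf hf_add hf_zero hf_two hf_neg smul_hf IsAct d0 d1 d2 tw cup11
  cup02)
open Pool.Agent.Work.MP_787500_nt.KR (FSys Sm1 Sm2 IsChar Smooth Z1 Z2 B2 LocH Pair LDual LocD zM
  cup11_Z2)
open Pool.Agent.Work.MP_787500_nt.KT hiding Str Rel Sel KH Ai IsP cc ff TT
open Pool.Agent.Work.MP_787500_nt.KS (hfT hfT_apply hfT_sq hfT_two hfT_neg smul_hfT hfT_nondeg hfT_smul
  inv_zero smul_F dF1 rt rt_sq sm_eps sm1_one sm1_two zmod2_cases hfT_eps_sq exists_mul hfT_eq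
  trace_trick sym_rank ann mem_ann finrank_ann)


variable {F : Type*} [Field F] [Finite F] [CharP F 2] [Algebra (ZMod 2) F] {P : Type*} [Group P]
  {T : FSys P} {χ : P → ℤ_[2]} {iv : (P → P → A0) → A0} {ε : P → ZMod 2}

theorem eps_Z2 (hχ : IsChar T χ) (headd : ∀ g h, ε (g * h) = ε g + ε h) (hes : Sm1 T ε)
    {c : P → F} (hc : c ∈ homS F T) : Z2 T (tw χ) (fun s t => hfT (ε s • c t)) := by
  obtain ⟨hc1, hc2⟩ := mem_homS.1 hc
  refine ⟨?_, fun u v w => ?_⟩
  · obtain ⟨W, hW, h1⟩ := sm_eps hes hc1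
    refine ⟨W, hW, fun g h w hw w' hw' => ?_⟩
    have h2 := h1 g h w hw w' hw'
    beta_reduce at h2 ⊢
    rw [h2]
  · show χ u • hfT (ε v • c w) - hfT (ε (u * v) • c w) + hfT (ε u • c (v * w)) -
      hfT (ε u • c v) = 0
    rw [smul_hfT (hχ.odd u), sub_eq_add_neg, sub_eq_add_neg, hfT_neg, hfT_neg, ← map_add,
      ← map_add, ← map_add, headd, hc2, add_smul, smul_add]
    have h3 : ε v • c w + (ε u • c w + ε v • c w) + (ε u • c v + ε u • c w) + ε u • c v =
        (ε v • c w + ε v • c w) + (ε u • c w + ε u • c w) + (ε u • c v + ε u • c v) := by abel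
    rw [h3]
    simp only [KT.add_self, map_zero]

theorem exists_lam (Lc : LocH T χ iv) (headd : ∀ g h, ε (g * h) = ε g + ε h) (hes : Sm1 T ε) :
    ∃ lam : homS F T →ₗ[F] F, IsLam T iv ε lam := by
  have hz : ∀ (α : F) (c : homS F T), Z2 T (tw χ) (fun s t => hfT (ε s • (α * c.1 t))) :=
    fun α c => eps_Z2 Lc.char headd hes ((homS F T).smul_mem α c.2)
  have h1 : ∀ c : homS F T, ∃ b : F, ∀ α, hfT (α * b) =
      iv (fun s t => hfT (ε s • (α * c.1 t))) := by
    intro c
    exact exists_mul (AddMonoidHom.mk' (fun α : F => iv (fun s t => hfT (ε s • (α * c.1 t))))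
      (fun a a' => by
        rw [← Lc.add _ _ (hz a c) (hz a' c)]
        congr 1
        funext s t
        rw [add_mul, smul_add, map_add]))
  choose lam hlam using h1
  refine ⟨{ toFun := lam, map_add' := fun c c' => ?_, map_smul' := fun a c => ?_ },
    fun α c => (hlam c α).symm⟩
  · refine hfT_eq fun α => ?_
    rw [mul_add, map_add, hlam, hlam, hlam, ← Lc.add _ _ (hz α c) (hz α c')]
    congr 1
    funext s t
    show hfT (ε s • (α * (c.1 t + c'.1 t))) = _
    rw [mul_add, smul_add, map_add]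
  · refine hfT_eq fun α => ?_
    show hfT (α * lam (a • c)) = hfT (α * (a * lam c))
    rw [← mul_assoc, hlam, hlam]
    congr 1
    funext s t
    show hfT (ε s • (α * (a * c.1 t))) = _
    rw [mul_assoc]

theorem lam_sq {lam : homS F T →ₗ[F] F} (hl : IsLam T iv ε lam) {c c1 : homS F T}
    (h : ∀ t, c1.1 t = c.1 t ^ 2) : lam c1 = lam c ^ 2 := by
  refine hfT_eq fun α => ?_
  have hrt : rt α ^ 2 = α := rt_sq α
  rw [← hl α c1, ← hrt, ← mul_pow, hfT_sq, ← hl (rt α) c]
  congr 1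
  funext s t
  rw [h, ← mul_pow, ← hfT_eps_sq]

theorem lam_cob (Lc : LocH T χ iv) {lam : homS F T →ₗ[F] F} (hl : IsLam T iv ε lam)
    {c : homS F T} {b : P → F} (hb : Sm1 T b) (h : ∀ s t, ε s • c.1 t = b s + b t + b (s * t)) :
    lam c = 0 := by
  refine hfT_nondeg fun α => ?_
  rw [← hl α c]
  have h1 : (fun s t => hfT (ε s • (α * c.1 t))) = d1 (tw χ) (fun g => hfT (α * b g)) := by
    funext s t
    show _ = hfT (α * b s) + χ s • hfT (α * b t) - hfT (α * b (s * t))
    rw [smul_hfT (Lc.char.odd s), sub_eq_add_neg, hfT_neg, ← map_add, ← map_add, ← mul_add,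
      ← mul_add, ← h, mul_smul_comm]
  rw [h1]
  exact Lc.cob _ (sm1_one hb fun x => hfT (α * x))

end Pool.Agent.Work.MP_787500_nt.OR
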