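import Mathlib
import Pool.Agent.Work.MP_787500_nt.OR.Defs

/-!
# Module Quad (size M): linear algebra for one matrix `g` that preserves a Lagrangian subspace `W` of `F ^ n`

* `exists_w0`: `qq` is additive on `W` (`qq_add`, `ee = 0` on `W`) and `qq (a • x) = a ^ 2 * qq x`, so `x ↦ rt (qq x)` is a linear functional on `W`; extend it to `F ^ n`
  (`LinearMap.exists_extend`) and use `KT.exists_ee`; `rt_sq`.
* `surj_W`: `g : W → W` is injective (`sp_inj`), so surjective (finite dimension).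
* `k1_mem`: for `x ∈ W`: `ee (kk g) (g x) ^ 2 = qq (g x) + qq x = ee w₀ (g x) ^ 2 + ee w₀ x ^ 2` and `ee w₀ x = ee (g w₀) (g x)`, so `ee (k1 w₀ g) (g x) = 0` (`sq_inj`); `surj_W` and `IsLg`.
* `k1_diag`: put `q x = qq x + ee w₀ x ^ 2`: `q (x + y) = q x + q y + ee x y`, `q = 0` on `W`, `q (g x) + q x = ee (k1 w₀ g) (g x) ^ 2`. With `d = g w + w ∈ W`, `g w = w + d`:
  `q (g w) + q w = q d + ee w d = ee w d` and `ee (k1 w₀ g) (g w) = ee (k1 w₀ g) w` because `k1 w₀ g, d ∈ W`.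
* `mm_eq`: choose `v` with `g v + kk g = v` (`vv g`, `vv_spec`), put `v₁ = v + w₀`; then `g v₁ + v₁ = k1 w₀ g`. By `tau_eq`: `ee v (g v) + mm g = finrank (fixv g)`, and
  `ee v (g v) = ee v₁ (k1 w₀ g) + ee w₀ (k1 w₀ g) + ee (k1 w₀ g) (g w₀) + ee w₀ (g w₀)` (expand). CLAIM: `ee v₁ (k1 w₀ g) = finrank (fixv g)` in `F`. Let `W₀ = {w : g w + w ∈ W}` (contains `W` and `v₁`) and
  `Φ w w = ee w (g w + w)` on `W₀`: symmetric (`ee (g w + w) (g w + w) = 0` and `ee (g w) (g w) = ee w w`), `Φ w w = ee (k1 w₀ g) w ^ 2` (`k1_diag`) `= Φ v₁ w ^ 2` up to the order of the arguments.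
  `KS.sym_rank`: `finrank W₀ = finrank (ker Φ) + Φ v₁ v₁`, `Φ v₁ v₁ = ee v₁ (k1 w₀ g)`. DIMENSIONS: the annihilator of `W₀` for `ee` is `gW := (g + 1) W` (`W₀` is the annihilator of `(g + 1) W`:
  `ee (g w + w) x = ee w (g⁻¹ x + x)`, `x = g x₁`), so `finrank W₀ = n - finrank ((g + 1) W) = n - (finrank W - finrank (fixv g ⊓ W))`; `ker Φ = {w : (g + 1) w ∈ (g + 1) W} = W ⊔ fixv g`, so
  `finrank (ker Φ) = finrank W + finrank (fixv g) - finrank (W ⊓ fixv g)`. The sum `finrank W₀ + finrank (ker Φ) = n + finrank (fixv g) + 2 finrank (fixv g ⊓ W) - 2 ...` is `finrank (fixv g)` modulo 2 (`n` is even, `n_even`).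
-/

set_option autoImplicit false
set_option linter.unusedSectionVars false

namespace Pool.Agent.Work.MP_787500_nt.OR

open Matrix
open Pool.Agent.Work.MP_787500_nt.GP (A0 hf hf_add hf_zero hf_two hf_neg smul_hf IsAct d0 d1 d2 tw cup11
  cup02)
open Pool.Agent.Work.MP_787500_nt.KR (FSys Sm1 Sm2 IsChar Smooth Z1 Z2 B2 LocH Pair LDual LocD zM
  cup11_Z2)
open Pool.Agent.Work.MP_787500_nt.KT hiding Str Rel Sel KH Ai IsP cc ff TT
open Pool.Agent.Work.MP_787500_nt.KS (hfT hfT_apply hfT_sq hfT_two hfT_neg smul_hfT hfT_nondeg hfT_smul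
  inv_zero smul_F dF1 rt rt_sq sm_eps sm1_one sm1_two zmod2_cases hfT_eps_sq exists_mul hfT_eq
  trace_trick sym_rank ann mem_ann finrank_ann)


variable {F : Type*} [Field F] [CharP F 2] [PerfectRing F 2] {n : ℕ} [Sy F n]
  {W : Submodule F (Fin n → F)} {w₀ : Fin n → F} {g : Matrix (Fin n) (Fin n) F}

theorem exists_w0 (hW : IsLg W) : ∃ w₀ : Fin n → F, ∀ x ∈ W, qq x = ee w₀ x ^ 2 := by
  let l : W →ₗ[F] F :=
    { toFun := fun u => rt (qq u.1)
      map_add' := by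
        intro x y
        rw [← map_add]
        congr 1
        show qq (x.1 + y.1) = _
        rw [qq_add, (hW x.1).1 x.2 y.1 y.2, add_zero]
      map_smul' := by
        intro a x
        show rt (qq (a • x.1)) = a * rt (qq x.1)
        rw [qq_smul, map_mul, KS.rt_of_sq] }
  obtain ⟨l', hl'⟩ := LinearMap.exists_extend l
  obtain ⟨k, hk⟩ := exists_ee l'
  refine ⟨k, fun x hx => ?_⟩
  have h1 : l' x = l ⟨x, hx⟩ := by
    rw [← hl']
    rfl
  rw [hk, h1]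
  exact (rt_sq _).symm

theorem surj_W (hg : IsSp g) (hst : ∀ x ∈ W, g *ᵥ x ∈ W) {y : Fin n → F} (hy : y ∈ W) :
    ∃ x ∈ W, g *ᵥ x = y := by
  let f : W →ₗ[F] W := (Matrix.mulVecLin g).restrict hst
  have h1 : Function.Injective f := by
    rw [injective_iff_map_eq_zero]
    intro x hx
    have h2 : g *ᵥ x.1 = 0 := congrArg Subtype.val hx
    exact Subtype.ext (sp_inj hg h2)
  obtain ⟨x, hx⟩ := (LinearMap.injective_iff_surjective.1 h1) ⟨y, hy⟩
  exact ⟨x.1, x.2, congrArg Subtype.val hx⟩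

theorem k1_mem (hW : IsLg W) (hw₀ : ∀ x ∈ W, qq x = ee w₀ x ^ 2) (hg : IsSp g)
    (hst : ∀ x ∈ W, g *ᵥ x ∈ W) : k1 w₀ g ∈ W := by
  rw [hW]
  intro y hy
  obtain ⟨x, hx, rfl⟩ := surj_W hg hst hy
  have h1 := qq_mulVec hg x
  rw [hw₀ _ hx, hw₀ _ hy, ← sq_add] at h1
  have h2 := KS.sq_inj h1
  unfold k1
  rw [ee_add_left, ee_add_left, ← h2, ee_mulVec hg, add_comm (ee w₀ x), add_self]

theorem k1_diag (hW : IsLg W) (hw₀ : ∀ x ∈ W, qq x = ee w₀ x ^ 2) (hg : IsSp g)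
    (hst : ∀ x ∈ W, g *ᵥ x ∈ W) {w : Fin n → F} (hw : g *ᵥ w + w ∈ W) :
    ee w (g *ᵥ w + w) = ee w (k1 w₀ g) ^ 2 := by
  have hk := k1_mem hW hw₀ hg hst
  obtain ⟨d, hd⟩ : ∃ d, g *ᵥ w + w = d := ⟨_, rfl⟩
  rw [hd] at hw ⊢
  have h1 := U_cancel hd
  have h2 := qq_mulVec hg w
  have h3 : kk g = k1 w₀ g + (g *ᵥ w₀ + w₀) := by
    unfold k1
    rw [add_assoc, U_add_self, add_zero]
  have h4 : ee (k1 w₀ g) d = 0 := (hW _).1 hk d hw
  have h5 : ee (kk g) (g *ᵥ w) = ee (k1 w₀ g) w + ee w₀ d := by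
    rw [h3, ee_add_left, ee_add_left, ee_mulVec hg, h1, ee_add_right, ee_add_right, h4]
    linear_combination add_self (ee w₀ w)
  have h6 : qq (g *ᵥ w) + qq w = ee w₀ d ^ 2 + ee w d := by
    rw [h1, qq_add, ← hw₀ d hw]
    linear_combination add_self (qq w)
  rw [h5, sq_add, h6] at h2
  rw [ee_comm w (k1 w₀ g)]
  linear_combination h2

/-- the annihilator of the image of `W` under `g + 1` -/
private theorem ann_map (hW : IsLg W) (hg : IsSp g) (hst : ∀ x ∈ W, g *ᵥ x ∈ W) :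
    ann (Sy.e : (Fin n → F) →ₗ[F] (Fin n → F) →ₗ[F] F) (W.map (sb g)) = W.comap (sb g) := by
  ext x
  rw [mem_ann, Submodule.mem_comap, sb_apply, hW]
  constructor
  · intro h y hy
    obtain ⟨w, hw, rfl⟩ := surj_W hg hst hy
    have h1 : ee x (g *ᵥ w + w) = 0 := h _ ⟨w, hw, rfl⟩
    rw [ee_add_right] at h1
    rw [ee_add_left, ee_mulVec hg, add_comm]
    exact h1
  · rintro h _ ⟨w, hw, rfl⟩
    have h1 := h _ (hst w hw)
    show ee x (g *ᵥ w + w) = 0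
    rw [ee_add_left, ee_mulVec hg, add_comm] at h1
    rw [ee_add_right]
    exact h1

private theorem ker_sb : LinearMap.ker (sb g) = fixv g := by
  ext x
  rw [LinearMap.mem_ker, mem_fixv, sb_apply]
  constructor
  · intro h
    have h1 := U_cancel h
    rwa [add_zero] at h1
  · intro h
    rw [h, U_add_self]

/-- the form on `W₀` -/
private noncomputable def Ph (g : Matrix (Fin n) (Fin n) F) (W : Submodule F (Fin n → F)) :
    (W.comap (sb g)) →ₗ[F] (W.comap (sb g)) →ₗ[F] F :=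
  (Sy.e : (Fin n → F) →ₗ[F] (Fin n → F) →ₗ[F] F).compl₁₂ (W.comap (sb g)).subtype
    ((sb g).comp (W.comap (sb g)).subtype)

private theorem Ph_apply (x y : W.comap (sb g)) : Ph g W x y = ee x.1 (g *ᵥ y.1 + y.1) := rfl

private theorem Ph_symm (hW : IsLg W) (hg : IsSp g) (x y : W.comap (sb g)) :
    Ph g W x y = Ph g W y x := by
  rw [Ph_apply, Ph_apply]
  have h1 : ee (g *ᵥ x.1 + x.1) (g *ᵥ y.1 + y.1) = 0 := (hW _).1 x.2 _ y.2
  rw [ee_add_left, ee_add_right, ee_add_right, ee_mulVec hg] at h1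
  rw [ee_add_right, ee_add_right, ee_comm y.1 x.1, ee_comm y.1 (g *ᵥ x.1)]
  linear_combination h1 - add_self (ee x.1 y.1) - add_self (ee (g *ᵥ x.1) y.1)

private theorem ker_Ph (hW : IsLg W) (hg : IsSp g) (hst : ∀ x ∈ W, g *ᵥ x ∈ W) :
    (LinearMap.ker (Ph g W)).map (W.comap (sb g)).subtype = W ⊔ fixv g := by
  rw [← ker_sb, ← Submodule.comap_map_eq]
  have h0 := KS.ann_ann (b := (Sy.e : (Fin n → F) →ₗ[F] (Fin n → F) →ₗ[F] F)) e_symm
    (N := W.map (sb g)) (by rw [ker_e]; exact bot_le)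
  rw [ann_map hW hg hst] at h0
  ext x
  rw [Submodule.mem_map, Submodule.mem_comap]
  constructor
  · rintro ⟨y, hy, rfl⟩
    rw [← h0]
    intro z hz
    rw [LinearMap.mem_ker] at hy
    have h1 : Ph g W y ⟨z, hz⟩ = 0 := by rw [hy, LinearMap.zero_apply]
    rw [Ph_symm hW hg, Ph_apply] at h1
    show ee (g *ᵥ y.1 + y.1) z = 0
    rw [ee_comm]
    exact h1
  · intro hx
    have hle : sb g x ∈ W := by
      obtain ⟨w, hw, h1⟩ := hx
      rw [← h1]
      exact W.add_mem (hst w hw) hw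
    refine ⟨⟨x, hle⟩, ?_, rfl⟩
    rw [LinearMap.mem_ker]
    refine LinearMap.ext fun z => ?_
    rw [LinearMap.zero_apply, Ph_symm hW hg, Ph_apply]
    rw [← h0] at hx
    have h1 : ee (g *ᵥ x + x) z.1 = 0 := hx z.1 z.2
    rw [ee_comm]
    exact h1

private theorem dim_sum (hW : IsLg W) (hg : IsSp g) (hst : ∀ x ∈ W, g *ᵥ x ∈ W) :
    Module.finrank F (LinearMap.ker (Ph g W)) + Module.finrank F (W.comap (sb g)) =
      n + Module.finrank F (fixv g) := by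
  have h1 := finrank_ann (b := (Sy.e : (Fin n → F) →ₗ[F] (Fin n → F) →ₗ[F] F)) e_symm
    (N := W.map (sb g)) (by rw [ker_e]; exact bot_le)
  rw [ann_map hW hg hst, ker_e, finrank_bot, Module.finrank_fin_fun, add_zero] at h1
  have h2 := LinearMap.finrank_range_add_finrank_ker ((sb g).domRestrict W)
  rw [LinearMap.range_domRestrict, LinearMap.ker_domRestrict, ker_sb] at h2
  have h3 : Module.finrank F ((fixv g).comap W.subtype) =
      Module.finrank F (W ⊓ fixv g : Submodule F (Fin n → F)) := by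
    rw [← Submodule.map_comap_subtype, Submodule.finrank_map_subtype_eq]
  have h4 : Module.finrank F (LinearMap.ker (Ph g W)) =
      Module.finrank F (W ⊔ fixv g : Submodule F (Fin n → F)) := by
    rw [← ker_Ph hW hg hst, Submodule.finrank_map_subtype_eq]
  have h5 := Submodule.finrank_sup_add_finrank_inf_eq W (fixv g)
  omega

theorem mm_eq (hW : IsLg W) (hw₀ : ∀ x ∈ W, qq x = ee w₀ x ^ 2) (hg : IsSp g)
    (hst : ∀ x ∈ W, g *ᵥ x ∈ W) :
    mm g = ee w₀ (k1 w₀ g) + ee (k1 w₀ g) (g *ᵥ w₀) + ee w₀ (g *ᵥ w₀) := by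
  have hk := k1_mem hW hw₀ hg hst
  have hv := vv_spec hg
  have h1 := tau_eq hg hv
  have hkk := kk_of_fix hv
  generalize vv g = v at *
  obtain ⟨v₁, hv₁⟩ : ∃ v₁, v + w₀ = v₁ := ⟨_, rfl⟩
  have hv₂ := U_cancel hv₁
  have h2 : g *ᵥ v₁ + v₁ = k1 w₀ g := by
    unfold k1
    rw [← hv₁, hkk, mulVec_add]
    abel
  have h2' := U_cancel h2
  have h3 : ee v₁ (k1 w₀ g) = (Module.finrank F (fixv g) : F) := by
    have hm : v₁ ∈ W.comap (sb g) := by
      rw [Submodule.mem_comap, sb_apply, h2]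
      exact hk
    have h4 := sym_rank (Ph g W) (Ph_symm hW hg) ⟨v₁, hm⟩ (fun x => by
      rw [Ph_symm hW hg ⟨v₁, hm⟩ x, Ph_apply, Ph_apply]
      show _ = ee x.1 (g *ᵥ v₁ + v₁) ^ 2
      rw [h2]
      exact k1_diag hW hw₀ hg hst x.2)
    rw [Ph_apply] at h4
    change _ = _ + ee v₁ (g *ᵥ v₁ + v₁) at h4
    rw [h2] at h4
    have h5 := congrArg (Nat.cast : ℕ → F) (dim_sum hW hg hst)
    push_cast at h5
    rw [n_cast F n] at h5
    rw [h4] at h5
    linear_combination h5 - add_self (Module.finrank F (LinearMap.ker (Ph g W)) : F)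
  have h6 : ee w₀ v₁ = ee (g *ᵥ w₀) v₁ + ee (g *ᵥ w₀) (k1 w₀ g) := by
    rw [← ee_mulVec hg w₀ v₁, h2', ee_add_right]
  have h7 : ee v (g *ᵥ v) = ee v₁ (k1 w₀ g) + ee w₀ (k1 w₀ g) + ee (k1 w₀ g) (g *ᵥ w₀) +
      ee w₀ (g *ᵥ w₀) := by
    rw [hv₂, mulVec_add, h2', ee_comm (k1 w₀ g) (g *ᵥ w₀)]
    simp only [ee_add_left, ee_add_right, ee_self, h6, ee_comm v₁ (g *ᵥ w₀)]
    linear_combination add_self (ee (g *ᵥ w₀) v₁)
  rw [← h3, h7] at h1
  linear_combination h1 -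
    add_self (ee w₀ (k1 w₀ g) + ee (k1 w₀ g) (g *ᵥ w₀) + ee w₀ (g *ᵥ w₀))

end Pool.Agent.Work.MP_787500_nt.OR
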