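import Mathlib
import Pool.Agent.Work.MP_787500_nt.OR.Lam
import Pool.Agent.Work.MP_787500_nt.OR.Quad
/-!
# Module FormM (size M): the form `M` on the vectors fixed modulo `W`

`W0 = fixW B univ W`. For `z ∈ W0` and a smooth cocycle `y` with values in `W` the function `t ↦ ee z (y t)` is a smooth homomorphism (`hom_ee`: `ee z (B s y) = ee (B s z) (B s y) + ee (B s z + z) (B s y) = ee z y`,
because `B s z + z ∈ W`, `B s y ∈ W` and `W` is isotropic). `M m z = lam (t ↦ ee z (B t m + m))`, `lm z = lam (t ↦ ee z (k1 w₀ (B t)))`; `k1 w₀ (B t) ∈ W` (`k1_mem`) and it is a smooth cocycle (`kc_Z1` plus a coboundary,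
`k1_Z1`). `symm`: pointwise: `ee z (B t m + m) = ee m (B t z + z)` (`ee (B m + m) (B z + z) = 0` and `ee (B m) (B z) = ee m z`). `diag`: `k1_diag` and `lam_sq`.
`char_vec`: `sym_rank` for `b = M`: `M z z = lm z ^ 2 = M u z ^ 2`.
-/

set_option autoImplicit false
set_option linter.unusedSectionVars false

namespace Pool.Agent.Work.MP_787500_nt.OR

open Matrix
open Pool.Agent.Work.MP_787500_nt.GP (A0 hf hf_add hf_zero hf_two hf_neg smul_hf IsAct d0 d1 d2 tw cup11
  cup02)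
open Pool.Agent.Work.MP_787500_nt.KR (FSys Sm1 Sm2 IsChar Smooth Z1 Z2 B2 LocH Pair LDual LocD zM
  cup11_Z2)
open Pool.Agent.Work.MP_787500_nt.KT hiding Str Rel Sel KH Ai IsP cc ff TT
open Pool.Agent.Work.MP_787500_nt.KS (hfT hfT_apply hfT_sq hfT_two hfT_neg smul_hfT hfT_nondeg hfT_smul
  inv_zero smul_F dF1 rt rt_sq sm_eps sm1_one sm1_two zmod2_cases hfT_eps_sq exists_mul hfT_eq
  trace_trick sym_rank ann mem_ann finrank_ann)


variable {F : Type*} [Field F] [Finite F] [CharP F 2] [Algebra (ZMod 2) F] {n : ℕ} [Sy F n]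
  {P : Type*} [Group P] {T : FSys P} {χ : P → ℤ_[2]} {iv : (P → P → A0) → A0} {ε : P → ZMod 2}
  {B : P →* Matrix (Fin n) (Fin n) F} {W : Submodule F (Fin n → F)} {w₀ : Fin n → F}

theorem ee_fix (o : Ord B W) {z x : Fin n → F} (hz : ∀ g, B g *ᵥ z + z ∈ W) (hx : x ∈ W) (s : P) :
    ee z (B s *ᵥ x) = ee z x := by
  have h1 : ee (B s *ᵥ z + z) (B s *ᵥ x) = 0 := (o.lg _).1 (hz s) _ (o.st s x hx)
  rw [ee_add_left, o.sp s] at h1
  exact (CharTwo.add_eq_zero.1 h1).symm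

theorem hom_ee (o : Ord B W) {z : Fin n → F} (hz : ∀ g, B g *ᵥ z + z ∈ W) {y : P → Fin n → F}
    (hy : Z1 T (KT.act B) y) (hyW : ∀ g, y g ∈ W) : (fun t => ee z (y t)) ∈ homS F T := by
  obtain ⟨⟨V, hV, h1⟩, h2⟩ := hy
  refine ⟨⟨V, hV, fun g w hw => ?_⟩, fun g h => ?_⟩
  · beta_reduce
    rw [h1 g w hw]
  · have h3 : y (g * h) = y g + B g *ᵥ y h := h2 g h
    beta_reduce
    rw [h3, ee_add_right, ee_fix o hz (hyW h)]

theorem k1_Z1 (o : Ord B W) (hsm : Smooth T (KT.act B)) :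
    Z1 T (KT.act B) (fun g => k1 w₀ (B g)) := by
  have h1 := KT.kc_Z1 o.sp hsm
  have h2 := KR.d0_Z1 (S := T) (KT.isAct_act B) hsm w₀
  have h3 := (cocS T (B : P → Matrix (Fin n) (Fin n) F)).add_mem h1 h2
  have e : (fun g => k1 w₀ (B g)) = kc B + d0 (KT.act B) w₀ := by
    funext g
    rw [Pi.add_apply, KT.d0_act]
    rfl
  rw [e]
  exact h3

theorem cob_Z1 (hsm : Smooth T (KT.act B)) (m : Fin n → F) :
    Z1 T (KT.act B) (fun g => B g *ᵥ m + m) := by
  have h2 := KR.d0_Z1 (S := T) (KT.isAct_act B) hsm m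
  have e : (fun g => B g *ᵥ m + m) = d0 (KT.act B) m := by
    funext g
    rw [KT.d0_act]
  rw [e]
  exact h2

theorem exists_FM (Lc : LocH T χ iv) (headd : ∀ g h, ε (g * h) = ε g + ε h) (hes : Sm1 T ε)
    (o : Ord B W) (hsm : Smooth T (KT.act B)) (hw₀ : ∀ x ∈ W, qq x = ee w₀ x ^ 2) :
    ∃ M lm, FM iv B ε W w₀ M lm := by
  obtain ⟨lam, hl⟩ := exists_lam (F := F) Lc headd hes
  have hmem : ∀ m z : fixW (B : P → Matrix (Fin n) (Fin n) F) Set.univ W,
      (fun t => ee z.1 (B t *ᵥ m.1 + m.1)) ∈ homS F T := fun m z =>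
    hom_ee o (fun g => z.2 g (Set.mem_univ g)) (cob_Z1 hsm m.1) (fun g => m.2 g (Set.mem_univ g))
  have hmem1 : ∀ z : fixW (B : P → Matrix (Fin n) (Fin n) F) Set.univ W,
      (fun t => ee z.1 (k1 w₀ (B t))) ∈ homS F T := fun z =>
    hom_ee o (fun g => z.2 g (Set.mem_univ g)) (k1_Z1 o hsm)
      (fun g => k1_mem o.lg hw₀ (o.sp g) (o.st g))
  let M : fixW (B : P → Matrix (Fin n) (Fin n) F) Set.univ W →ₗ[F]
      fixW (B : P → Matrix (Fin n) (Fin n) F) Set.univ W →ₗ[F] F :=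
    LinearMap.mk₂ F (fun m z => lam ⟨_, hmem m z⟩)
      (fun m m' z => by
        rw [← map_add]
        congr 1
        refine Subtype.ext (funext fun t => ?_)
        show ee z.1 (B t *ᵥ (m.1 + m'.1) + (m.1 + m'.1)) =
          ee z.1 (B t *ᵥ m.1 + m.1) + ee z.1 (B t *ᵥ m'.1 + m'.1)
        rw [mulVec_add, ← ee_add_right]
        congr 1
        abel)
      (fun a m z => by
        rw [← map_smul]
        congr 1
        refine Subtype.ext (funext fun t => ?_)
        show ee z.1 (B t *ᵥ (a • m.1) + a • m.1) = a * ee z.1 (B t *ᵥ m.1 + m.1)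
        rw [mulVec_smul, ← smul_add, ee_smul_right])
      (fun m z z' => by
        rw [← map_add]
        congr 1
        refine Subtype.ext (funext fun t => ?_)
        show ee (z.1 + z'.1) (B t *ᵥ m.1 + m.1) = _
        rw [ee_add_left]
        rfl)
      (fun a m z => by
        rw [← map_smul]
        congr 1
        refine Subtype.ext (funext fun t => ?_)
        show ee (a • z.1) (B t *ᵥ m.1 + m.1) = a * ee z.1 (B t *ᵥ m.1 + m.1)
        rw [ee_smul_left])
  let lm : fixW (B : P → Matrix (Fin n) (Fin n) F) Set.univ W →ₗ[F] F :=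
    { toFun := fun z => lam ⟨_, hmem1 z⟩
      map_add' := fun z z' => by
        rw [← map_add]
        congr 1
        refine Subtype.ext (funext fun t => ?_)
        show ee (z.1 + z'.1) (k1 w₀ (B t)) = _
        rw [ee_add_left]
        rfl
      map_smul' := fun a z => by
        rw [RingHom.id_apply, ← map_smul]
        congr 1
        refine Subtype.ext (funext fun t => ?_)
        show ee (a • z.1) (k1 w₀ (B t)) = a * ee z.1 (k1 w₀ (B t))
        rw [ee_smul_left] }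
  have hM : ∀ m z, M m z = lam ⟨_, hmem m z⟩ := fun m z => rfl
  have hlm : ∀ z, lm z = lam ⟨_, hmem1 z⟩ := fun z => rfl
  refine ⟨M, lm, ⟨fun α m z => ?_, fun α z => ?_, fun m z => ?_, fun z => ?_⟩⟩
  · rw [hM]
    exact hl α ⟨_, hmem m z⟩
  · rw [hlm]
    exact hl α ⟨_, hmem1 z⟩
  · rw [hM, hM]
    congr 1
    refine Subtype.ext (funext fun t => ?_)
    show ee z.1 (B t *ᵥ m.1 + m.1) = ee m.1 (B t *ᵥ z.1 + z.1)
    have h1 : ee (B t *ᵥ m.1 + m.1) (B t *ᵥ z.1 + z.1) = 0 :=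
      (o.lg _).1 (m.2 t (Set.mem_univ t)) _ (z.2 t (Set.mem_univ t))
    rw [ee_add_left, ee_add_right, o.sp t] at h1
    have h2 : ee m.1 z.1 + ee (B t *ᵥ m.1) z.1 + ee m.1 (B t *ᵥ z.1 + z.1) = 0 := h1
    rw [ee_add_right, ee_comm z.1 (B t *ᵥ m.1), ee_comm z.1 m.1,
      add_comm (ee (B t *ᵥ m.1) z.1) (ee m.1 z.1)]
    exact CharTwo.add_eq_zero.1 h2
  · rw [hM, hlm]
    exact lam_sq hl fun t => k1_diag o.lg hw₀ (o.sp t) (o.st t) (z.2 t (Set.mem_univ t))

theorem char_vec {M : fixW B Set.univ W →ₗ[F] fixW B Set.univ W →ₗ[F] F}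
    {lm : fixW B Set.univ W →ₗ[F] F} (h : FM iv B ε W w₀ M lm) {u : fixW B Set.univ W}
    (hu : ∀ z, M u z = lm z) : (Module.finrank F (fixW B Set.univ W) : F) +
      Module.finrank F (LinearMap.ker M) = lm u := by
  have h1 := sym_rank M h.symm u fun x => by rw [h.diag, hu]
  rw [h1, hu u, add_right_comm, CharTwo.add_self_eq_zero, zero_add]

end Pool.Agent.Work.MP_787500_nt.OR
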