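import Mathlib
import Pool.Agent.Work.MP_787500_nt.OR.FormM
/-!
# Module LiftM (size M): the classes `ε ∪ y` in `H^2 (P, W)`

`y` is a smooth cocycle with values in `W`.
* `lift_of`: `OD.two` for `f s t = ε s • (B s *ᵥ y t)` (values in `W` by `o.st`; the cocycle identity from `headd`, `hy.2`; smooth: `hsm` gives `A w = 1` on a member, `smooth_A`, `sm_eps`-like);
  for `z` fixed modulo `W`: `ee z (ε s • B s y t) = ε s • ee z (y t)` (`ee_fix`), so `hz` for `α = 1` is the hypothesis. `IsLift B ε a y` is `a (g h) = a g + B g a h + ε g • B g y h` (characteristic 2).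
* `of_lift`: `b s = ee z (a s)`: `ee z (a (s * t)) = ee z (a s) + ee z (a t) + ε s • ee z (y t)` (`ee_fix` twice), so `hfT (ε s • (α * ee z (y t)))` is the coboundary of `hfT (α * ee z (a s))`: `Lc.cob` (compare `lam_cob`).
* `ker_lift`: `m ∈ ker M` iff `ε ∪ dm` has a lift with values in `W`.
* `char_of`: if `y = k1 + du`, `u ∈ W0`, has a lift with values in `W` then `M u z = lm z` for all `z`: `hfT (ε s • (α * ee z (y t)))` is the sum of the two functions in `FM.val`, `FM.vlm` (`eps_Z2` and `Lc.add`; `hom_ee`).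
-/

set_option autoImplicit false
set_option linter.unusedSectionVars false

namespace Pool.Agent.Work.MP_787500_nt.OR

open Matrix
open Pool.Agent.Work.MP_787500_nt.GP (A0 hf hf_add hf_zero hf_two hf_neg smul_hf IsAct d0 d1 d2 tw cup11
  cup02)
open Pool.Agent.Work.MP_787500_nt.KR (FSys Sm1 Sm2 IsChar Smooth Z1 Z2 B2 LocH Pair LDual LocD zM
  cup11_Z2)
open Pool.Agent.Work.MP_787500_nt.KT hiding Str Rel Sel KH Ai IsP cc ff TT
open Pool.Agent.Work.MP_787500_nt.KS (hfT hfT_apply hfT_sq hfT_two hfT_neg smul_hfT hfT_nondeg hfT_smul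
  inv_zero smul_F dF1 rt rt_sq sm_eps sm1_one sm1_two zmod2_cases hfT_eps_sq exists_mul hfT_eq
  trace_trick sym_rank ann mem_ann finrank_ann)


variable {F : Type*} [Field F] [Finite F] [CharP F 2] [Algebra (ZMod 2) F] {n : ℕ} [Sy F n]
  {P : Type*} [Group P] {T : FSys P} {χ : P → ℤ_[2]} {iv : (P → P → A0) → A0} {ε : P → ZMod 2}
  {B : P →* Matrix (Fin n) (Fin n) F} {W : Submodule F (Fin n → F)} {w₀ : Fin n → F}

private theorem z2c {x y : Fin n → F} (h : x + y = 0) : x = y := by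
  have h1 := U_cancel h
  rwa [add_zero] at h1

theorem lift_of (headd : ∀ g h, ε (g * h) = ε g + ε h) (hes : Sm1 T ε)
    (o : Ord B W) (hsm : Smooth T (KT.act B)) (od : OD T iv B W) {y : P → Fin n → F}
    (hy : Z1 T (KT.act B) y) (hyW : ∀ g, y g ∈ W)
    (hz : ∀ z, (∀ g, B g *ᵥ z + z ∈ W) → iv (fun s t => hfT (ε s • ee z (y t))) = 0) :
    ∃ a : P → Fin n → F, Sm1 T a ∧ (∀ g, a g ∈ W) ∧
      IsLift (B : P → Matrix (Fin n) (Fin n) F) ε a y := by
  obtain ⟨W1, hW1, hB1⟩ := smooth_A hsm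
  obtain ⟨W2, hW2, he2⟩ := hes
  obtain ⟨W3, hW3, hy3⟩ := hy.1
  have hyc : ∀ s t, y (s * t) = y s + B s *ᵥ y t := hy.2
  have hfs : Sm2 T (fun s t => ε s • (B s *ᵥ y t)) := by
    refine ⟨W1 ⊓ (W2 ⊓ W3), T.inf hW1 (T.inf hW2 hW3), fun g h w hw w' hw' => ?_⟩
    beta_reduce
    rw [hy3 h w' hw'.2.2, map_mul, hB1 w hw.1, mul_one, he2 g w hw.2.1]
  have hfW : ∀ s t, ε s • (B s *ᵥ y t) ∈ W := fun s t => by
    rw [smul_U]
    exact W.smul_mem _ (o.st s _ (hyW t))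
  have hfc : ∀ s t u, B s *ᵥ (ε t • (B t *ᵥ y u)) + ε (s * t) • (B (s * t) *ᵥ y u) +
      ε s • (B s *ᵥ y (t * u)) + ε s • (B s *ᵥ y t) = 0 := by
    intro s t u
    simp only [mulVec_add, headd, map_mul, ← mulVec_mulVec, hyc, smul_U, mulVec_smul, add_smul,
      smul_add]
    ext i
    simp only [Pi.add_apply, Pi.smul_apply, Pi.zero_apply, smul_eq_mul]
    ring_nf
    reduce_mod_char!
  obtain ⟨a, ha1, ha2, ha3⟩ := od.two _ hfs hfW hfc fun z hz1 => by
    rw [← hz z hz1]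
    congr 1
    funext s t
    rw [smul_U, ee_smul_right, ee_fix o hz1 (hyW t), ← Algebra.smul_def]
  refine ⟨a, ha1, ha2, fun s t => ?_⟩
  have h1 := ha3 s t
  refine z2c ?_
  rw [h1]
  ext i
  simp only [Pi.add_apply, Pi.zero_apply]
  ring_nf
  reduce_mod_char!

theorem of_lift (Lc : LocH T χ iv) (o : Ord B W) {a y : P → Fin n → F} (ha : Sm1 T a)
    (haW : ∀ g, a g ∈ W) (hyW : ∀ g, y g ∈ W)
    (hl : IsLift (B : P → Matrix (Fin n) (Fin n) F) ε a y) {z : Fin n → F}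
    (hz : ∀ g, B g *ᵥ z + z ∈ W) (α : F) : iv (fun s t => hfT (ε s • (α * ee z (y t)))) = 0 := by
  have h1 : (fun s t => hfT (ε s • (α * ee z (y t)))) =
      d1 (tw χ) (fun g => hfT (α * ee z (a g))) := by
    funext s t
    show _ = hfT (α * ee z (a s)) + χ s • hfT (α * ee z (a t)) - hfT (α * ee z (a (s * t)))
    have h2 : a (s * t) = a s + B s *ᵥ a t + ε s • (B s *ᵥ y t) := hl s t
    rw [smul_hfT (Lc.char.odd s), sub_eq_add_neg, hfT_neg, ← map_add, ← map_add, ← mul_add,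
      ← mul_add, h2, ee_add_right, ee_add_right, ee_fix o hz (haW t), smul_U, ee_smul_right,
      ee_fix o hz (hyW t), ← Algebra.smul_def, ← mul_smul_comm]
    congr 2
    have h3 : ee z (a s) + ee z (a t) + (ee z (a s) + ee z (a t) + ε s • ee z (y t)) =
        ε s • ee z (y t) := by
      rw [← add_assoc, CharTwo.add_self_eq_zero, zero_add]
    rw [h3]
  rw [h1]
  exact Lc.cob _ (sm1_one ha fun x => hfT (α * ee z x))

theorem ker_lift (Lc : LocH T χ iv) (headd : ∀ g h, ε (g * h) = ε g + ε h) (hes : Sm1 T ε)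
    (o : Ord B W) (hsm : Smooth T (KT.act B)) (od : OD T iv B W)
    {M : fixW B Set.univ W →ₗ[F] fixW B Set.univ W →ₗ[F] F}
    {lm : fixW B Set.univ W →ₗ[F] F} (h : FM iv B ε W w₀ M lm) (m : fixW B Set.univ W) :
    m ∈ LinearMap.ker M ↔ ∃ a : P → Fin n → F, Sm1 T a ∧ (∀ g, a g ∈ W) ∧
      IsLift (B : P → Matrix (Fin n) (Fin n) F) ε a (fun g => B g *ᵥ m.1 + m.1) := by
  have hm : ∀ g, B g *ᵥ m.1 + m.1 ∈ W := fun g => m.2 g (Set.mem_univ g)
  constructor
  · intro hk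
    refine lift_of headd hes o hsm od (cob_Z1 hsm m.1) hm fun z hz => ?_
    have h1 := h.val 1 m ⟨z, fun g _ => hz g⟩
    rw [LinearMap.mem_ker.1 hk, LinearMap.zero_apply, mul_zero, map_zero] at h1
    simp only [one_mul] at h1
    exact h1
  · rintro ⟨a, ha, haW, hl⟩
    rw [LinearMap.mem_ker]
    ext z
    refine hfT_nondeg fun α => ?_
    rw [← h.val α m z]
    exact of_lift Lc o ha haW hm hl (fun g => z.2 g (Set.mem_univ g)) α

theorem char_of (Lc : LocH T χ iv) (headd : ∀ g h, ε (g * h) = ε g + ε h) (hes : Sm1 T ε)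
    (o : Ord B W) (hsm : Smooth T (KT.act B)) (hw₀ : ∀ x ∈ W, qq x = ee w₀ x ^ 2)
    {M : fixW B Set.univ W →ₗ[F] fixW B Set.univ W →ₗ[F] F}
    {lm : fixW B Set.univ W →ₗ[F] F} (h : FM iv B ε W w₀ M lm) {u : fixW B Set.univ W}
    {a : P → Fin n → F} (ha : Sm1 T a) (haW : ∀ g, a g ∈ W)
    (hl : IsLift (B : P → Matrix (Fin n) (Fin n) F) ε a
      (fun g => k1 w₀ (B g) + (B g *ᵥ u.1 + u.1))) (z : fixW B Set.univ W) : M u z = lm z := by
  have hz : ∀ g, B g *ᵥ z.1 + z.1 ∈ W := fun g => z.2 g (Set.mem_univ g)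
  have hu : ∀ g, B g *ᵥ u.1 + u.1 ∈ W := fun g => u.2 g (Set.mem_univ g)
  have hk : ∀ g, k1 w₀ (B g) ∈ W := fun g => k1_mem o.lg hw₀ (o.sp g) (o.st g)
  refine hfT_eq fun α => ?_
  have h1 := of_lift Lc o ha haW (fun g => W.add_mem (hk g) (hu g)) hl hz α
  have c1 : (fun t => α * ee z.1 (k1 w₀ (B t))) ∈ homS F T :=
    (homS F T).smul_mem α (hom_ee o hz (k1_Z1 o hsm) hk)
  have c2 : (fun t => α * ee z.1 (B t *ᵥ u.1 + u.1)) ∈ homS F T :=
    (homS F T).smul_mem α (hom_ee o hz (cob_Z1 hsm u.1) hu)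
  have h2 := Lc.add _ _ (eps_Z2 Lc.char headd hes c1) (eps_Z2 Lc.char headd hes c2)
  have e : (fun s t => hfT (ε s • (α * ee z.1 (k1 w₀ (B t) + (B t *ᵥ u.1 + u.1))))) =
      fun s t => hfT (ε s • (α * ee z.1 (k1 w₀ (B t)))) +
        hfT (ε s • (α * ee z.1 (B t *ᵥ u.1 + u.1))) := by
    funext s t
    rw [← map_add, ← smul_add, ← mul_add, ← ee_add_right]
  rw [e, h2, h.vlm α z, h.val α u z, ← map_add, ← mul_add] at h1
  have h3 : hfT (α * M u z) = hfT (α * lm z) := by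
    rw [mul_add, map_add] at h1
    have h4 := congrArg (fun x => x + hfT (α * M u z)) h1
    beta_reduce at h4
    rw [add_assoc, hfT_two, add_zero, zero_add] at h4
    exact h4.symm
  exact h3

end Pool.Agent.Work.MP_787500_nt.OR
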