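import Mathlib
import Pool.Agent.Work.MP_787500_nt.OR.Defs
import Pool.Agent.Work.MP_787500_nt.KI.Dist
/-!
# Module Perp (size M): annihilators of subspaces of the local cocycles

* `finrank_perp`: let `V = cocS T B` (a submodule, finite by `ld.fin`). `KS.trace_trick` for `τ x y = iv (cup11 x y)` (additive: `inv_add_left`, `inv_add_right`; balanced: `cup_smul`) gives `b : V →ₗ V →ₗ F` with
  `iv (cup11 (a • x) y) = hfT (a * b x y)`; symmetric (`inv_symm`, `hfT_eq`); `ker b` = coboundaries (`ld.one`, `inv_cob_left`); `ann b` of `X.comap V.subtype` is `X2.comap V.subtype` (`iv (cup11 (a • x) y) = iv (cup11 x (a • y))`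
  and `X` is a subspace); `KS.finrank_ann`; `Submodule.comapSubtypeEquivOfLe` for the dimensions.
* `finrank_E`: `E = {x ∈ Z1 : ∃ m, x + dm has values in W}` is its own annihilator: isotropic (`x = x₁ + dm`, `y = y₁ + dm1`: `ee (x₁ s) (B s y₁ t) = 0`, the others by `inv_cob_left`, `inv_cob_right`);
  if `x` is orthogonal to `E` then `od.one`.
-/

set_option autoImplicit false
set_option linter.unusedSectionVars false

namespace Pool.Agent.Work.MP_787500_nt.OR

open Matrix
open Pool.Agent.Work.MP_787500_nt.GP (A0 hf hf_add hf_zero hf_two hf_neg smul_hf IsAct d0 d1 d2 tw cup11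
  cup02)
open Pool.Agent.Work.MP_787500_nt.KR (FSys Sm1 Sm2 IsChar Smooth Z1 Z2 B2 LocH Pair LDual LocD zM
  cup11_Z2)
open Pool.Agent.Work.MP_787500_nt.KT hiding Str Rel Sel KH Ai IsP cc ff TT
open Pool.Agent.Work.MP_787500_nt.KS (hfT hfT_apply hfT_sq hfT_two hfT_neg smul_hfT hfT_nondeg hfT_smul
  inv_zero smul_F dF1 rt rt_sq sm_eps sm1_one sm1_two zmod2_cases hfT_eps_sq exists_mul hfT_eq
  trace_trick sym_rank ann mem_ann finrank_ann)


variable {F : Type*} [Field F] [Finite F] [CharP F 2] [Algebra (ZMod 2) F] {n : ℕ} [Sy F n]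
  {P : Type*} [Group P] {T : FSys P} {χ : P → ℤ_[2]} {iv : (P → P → A0) → A0}
  {B : P →* Matrix (Fin n) (Fin n) F} {W : Submodule F (Fin n → F)}

theorem finrank_perp (Lc : LocH T χ iv) (hB : ∀ g, IsSp (B g)) (hsm : Smooth T (KT.act B))
    (ld : LDual T iv (KT.act B) (KT.act B) (BU : (Fin n → F) →+ (Fin n → F) →+ A0))
    {X X2 : Submodule F (P → Fin n → F)} (h1 : ∀ y ∈ X, Z1 T (KT.act B) y)
    (h2 : cobS (B : P → Matrix (Fin n) (Fin n) F) ≤ X)
    (h3 : ∀ x, x ∈ X2 ↔ Z1 T (KT.act B) x ∧ ∀ y ∈ X, iv (cup11 (KT.act B) BU x y) = 0) :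
    Module.finrank F X + Module.finrank F X2 =
      Module.finrank F (cocS T (B : P → Matrix (Fin n) (Fin n) F)) +
        Module.finrank F (cobS (B : P → Matrix (Fin n) (Fin n) F)) := by
  have hfin : Finite (cocS T (B : P → Matrix (Fin n) (Fin n) F)) := ld.fin
  have hfd : FiniteDimensional F (cocS T (B : P → Matrix (Fin n) (Fin n) F)) := Module.Finite.of_finite
  obtain ⟨b, hb1, hb2, hb3⟩ := Pool.Agent.Work.MP_787500_nt.KI.exists_locForm Lc hB hsm ld
  have hXZ : X ≤ cocS T (B : P → Matrix (Fin n) (Fin n) F) := fun x hx => h1 x hx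
  have hX2Z : X2 ≤ cocS T (B : P → Matrix (Fin n) (Fin n) F) := fun x hx => ((h3 x).1 hx).1
  have hr : ∀ N : Submodule F (P → Fin n → F), N ≤ cocS T (B : P → Matrix (Fin n) (Fin n) F) →
      Module.finrank F (N.comap (cocS T (B : P → Matrix (Fin n) (Fin n) F)).subtype) =
        Module.finrank F N := fun N hN => (Submodule.comapSubtypeEquivOfLe hN).finrank_eq
  have e1 : ann b (X.comap (cocS T (B : P → Matrix (Fin n) (Fin n) F)).subtype) =
      X2.comap (cocS T (B : P → Matrix (Fin n) (Fin n) F)).subtype := by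
    ext x
    refine (hb3 X hXZ x).trans ?_
    rw [Submodule.mem_comap, Submodule.coe_subtype, h3]
    exact ⟨fun h => ⟨x.2, h⟩, fun h => h.2⟩
  have e2 : LinearMap.ker b = (cobS (B : P → Matrix (Fin n) (Fin n) F)).comap
      (cocS T (B : P → Matrix (Fin n) (Fin n) F)).subtype := by
    ext x
    exact hb2 x
  have e3 := finrank_ann hb1 (N := X.comap (cocS T (B : P → Matrix (Fin n) (Fin n) F)).subtype)
    (fun x hx => h2 ((hb2 x).1 hx))
  rw [e1, e2, hr X hXZ, hr X2 hX2Z, hr _ (h2.trans hXZ)] at e3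
  exact e3

/-- the cocycles that have values in `W` up to coboundaries -/
def EW (T : FSys P) (B : P →* Matrix (Fin n) (Fin n) F) (W : Submodule F (Fin n → F)) :
    Submodule F (P → Fin n → F) where
  carrier := {x | Z1 T (KT.act B) x ∧ ∃ m : Fin n → F, ∀ g, x g + (B g *ᵥ m + m) ∈ W}
  add_mem' := by
    rintro x y ⟨h1, m, h2⟩ ⟨h1', m', h2'⟩
    refine ⟨(cocS T (B : P → Matrix (Fin n) (Fin n) F)).add_mem h1 h1', m + m', fun g => ?_⟩
    have e : (x + y) g + (B g *ᵥ (m + m') + (m + m')) =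
        (x g + (B g *ᵥ m + m)) + (y g + (B g *ᵥ m' + m')) := by
      rw [Pi.add_apply, mulVec_add]
      abel
    rw [e]
    exact W.add_mem (h2 g) (h2' g)
  zero_mem' := ⟨(cocS T (B : P → Matrix (Fin n) (Fin n) F)).zero_mem, 0, fun g => by
    rw [mulVec_zero, add_zero, add_zero]
    exact W.zero_mem⟩
  smul_mem' := by
    rintro a x ⟨h1, m, h2⟩
    refine ⟨(cocS T (B : P → Matrix (Fin n) (Fin n) F)).smul_mem a h1, a • m, fun g => ?_⟩
    have e : (a • x) g + (B g *ᵥ (a • m) + a • m) = a • (x g + (B g *ᵥ m + m)) := by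
      rw [Pi.smul_apply, mulVec_smul, smul_add, smul_add]
    rw [e]
    exact W.smul_mem a (h2 g)

theorem mem_EW {x : P → Fin n → F} : x ∈ EW T B W ↔
    Z1 T (KT.act B) x ∧ ∃ m : Fin n → F, ∀ g, x g + (B g *ᵥ m + m) ∈ W := Iff.rfl

theorem finrank_EW (Lc : LocH T χ iv) (o : Ord B W) (hsm : Smooth T (KT.act B))
    (ld : LDual T iv (KT.act B) (KT.act B) (BU : (Fin n → F) →+ (Fin n → F) →+ A0))
    (od : OD T iv B W) : Module.finrank F (EW T B W) + Module.finrank F (EW T B W) =
      Module.finrank F (cocS T (B : P → Matrix (Fin n) (Fin n) F)) +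
        Module.finrank F (cobS (B : P → Matrix (Fin n) (Fin n) F)) := by
  have hself : ∀ v : Fin n → F, v + v = 0 := fun v => by
    funext i
    exact CharTwo.add_self_eq_zero (v i)
  have hcob : ∀ m : Fin n → F, Z1 T (KT.act B) (fun g => B g *ᵥ m + m) := by
    intro m
    have h := Pool.Agent.Work.MP_787500_nt.QP.cob_coc (A := B) hsm
    have h4 : (fun g => B g *ᵥ m + m) ∈ cobS (B : P → Matrix (Fin n) (Fin n) F) := ⟨m, fun g => rfl⟩

    exact h h4

  refine finrank_perp Lc o.sp hsm ld (fun y hy => hy.1) ?_ ?_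
  · rintro x ⟨m, hm⟩
    refine ⟨?_, m, fun g => ?_⟩
    · have h4 : x = fun g => B g *ᵥ m + m := funext hm
      rw [h4]
      exact hcob m
    · rw [hm, hself]
      exact W.zero_mem
  · intro x
    constructor
    · rintro ⟨hx, m, hm⟩
      refine ⟨hx, ?_⟩
      rintro y ⟨hy, m', hm'⟩
      set x1 : P → Fin n → F := fun g => x g + (B g *ᵥ m + m) with hx1
      set y1 : P → Fin n → F := fun g => y g + (B g *ᵥ m' + m') with hy1
      have hx1Z : Z1 T (KT.act B) x1 :=
        (cocS T (B : P → Matrix (Fin n) (Fin n) F)).add_mem hx (hcob m)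
      have hy1Z : Z1 T (KT.act B) y1 :=
        (cocS T (B : P → Matrix (Fin n) (Fin n) F)).add_mem hy (hcob m')
      have ex : x = x1 + fun g => B g *ᵥ m + m := by
        funext g
        rw [Pi.add_apply, hx1, add_assoc, hself, add_zero]
      have ey : y = y1 + fun g => B g *ᵥ m' + m' := by
        funext g
        rw [Pi.add_apply, hy1, add_assoc, hself, add_zero]
      have h5 : iv (cup11 (KT.act B) BU x1 y1) = 0 := by
        have h6 : cup11 (KT.act B) BU x1 y1 = fun _ _ => (0 : A0) := by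
          funext s t
          show hfT (ee (x1 s) (B s *ᵥ y1 t)) = 0
          rw [(o.lg (x1 s)).1 (hm s) _ (o.st s _ (hm' t)), map_zero]
        rw [h6, inv_zero Lc]
      rw [ex, inv_add_left Lc o.sp hsm hx1Z (hcob m) hy, inv_cob_left Lc o.sp hsm ⟨m, fun g => rfl⟩ hy,
        add_zero, ey, inv_add_right Lc o.sp hsm hx1Z hy1Z (hcob m'),
        inv_cob_right Lc o.sp hsm hx1Z ⟨m', fun g => rfl⟩, add_zero, h5]
    · rintro ⟨hx, hperp⟩
      obtain ⟨m, hm⟩ := od.one x hx (fun y hy hyW => by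
        rw [inv_symm Lc o.sp hsm hy hx]
        refine hperp y ⟨hy, 0, fun g => ?_⟩
        rw [mulVec_zero, add_zero, add_zero]
        exact hyW g)
      exact ⟨hx, m, hm⟩

end Pool.Agent.Work.MP_787500_nt.OR
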