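import Mathlib
import Pool.Agent.Work.MP_787500_nt.OR.LiftM
import Pool.Agent.Work.MP_787500_nt.OR.Perp
/-!
# Module Cnt (size M): the dimensions of `R1 L` and `Y2 L` for the induced condition

`W0 = fixW B univ W`. Let `K ≤ (P → U) × U` be the subspace of the pairs `(r, m)` with `Z1 r`, `m ∈ W0` and `∃ p, ∀ d, r d + (B d (p + ε d • m) + p) ∈ W` (finite: `cocS` is finite by `ld.fin`, `U` is finite).
* first projection: image `R1 L` (`hL`, `mem_R1`; `IsLift r 0` is the cocycle condition), kernel `N = {m : (0, m) ∈ K}`;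
* second projection: image = the image of `ker M` in `U` (`ker_lift`: for `(r, m) ∈ K` the function `a d = r d + (B d (p + ε d • m) + p)` is a lift of `dm` with values in `W`, by `lift_cob`; conversely
  `r d = a d + ε d • B d m`, `p = 0`), kernel = `EW T B W`;
* `JW B ε W`: second projection: image `N`, kernel `W0`.
So `finrank R1 + finrank N = finrank (ker M) + finrank EW` and `finrank JW = finrank N + finrank W0`: `cnt_R1`.
* `cnt_main`: `finrank_perp` for `X = Y2 L` (`hk.coc`, `hk.cob`), `X2 = R1 L` (`hk.rel`; `mem_Y2`) gives `finrank (Y2 L) + finrank (R1 L) = 2 * finrank EW` (`finrank_EW`).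
-/

set_option autoImplicit false
set_option linter.unusedSectionVars false

namespace Pool.Agent.Work.MP_787500_nt.OR

open Matrix
open Pool.Agent.Work.MP_787500_nt.GP (A0 hf hf_add hf_zero hf_two hf_neg smul_hf IsAct d0 d1 d2 tw cup11
  cup02 EvPow)
open Pool.Agent.Work.MP_787500_nt.KR (FSys Sm1 Sm2 IsChar Smooth Z1 Z2 B2 LocH Pair LDual LocD zM
  cup11_Z2)
open Pool.Agent.Work.MP_787500_nt.KT hiding Str Rel Sel KH Ai IsP cc ff TT
open Pool.Agent.Work.MP_787500_nt.KS (hfT hfT_apply hfT_sq hfT_two hfT_neg smul_hfT hfT_nondeg hfT_smul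
  inv_zero smul_F dF1 rt rt_sq sm_eps sm1_one sm1_two zmod2_cases hfT_eps_sq exists_mul hfT_eq
  trace_trick sym_rank ann mem_ann finrank_ann ep)
open Pool.Agent.Work.MP_787500_nt.KI
open Pool.Agent.Work.MP_787500_nt.QS (Two ac2 be2 la2 Lag QM pB Zq)


variable {F : Type*} [Field F] [Finite F] [CharP F 2] [Algebra (ZMod 2) F] {n : ℕ} [Sy F n]
  {P : Type*} [Group P] {T : FSys P} {χ : P → ℤ_[2]} {iv : (P → P → A0) → A0} {ε : P → ZMod 2}
  {B : P →* Matrix (Fin n) (Fin n) F} {W : Submodule F (Fin n → F)} {w₀ : Fin n → F}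
  {L : Submodule F ((P → Fin n → F) × (P → Fin n → F))}
  {M : fixW B Set.univ W →ₗ[F] fixW B Set.univ W →ₗ[F] F} {lm : fixW B Set.univ W →ₗ[F] F}

/-! ### auxiliary lemmas -/

private theorem fr_fst {V W : Type*} [AddCommGroup V] [Module F V] [AddCommGroup W] [Module F W]
    (K : Submodule F (V × W)) [FiniteDimensional F K] :
    Module.finrank F K = Module.finrank F (K.map (LinearMap.fst F V W)) +
      Module.finrank F (K.comap (LinearMap.inr F V W)) := by
  have h1 := LinearMap.finrank_range_add_finrank_ker ((LinearMap.fst F V W).domRestrict K)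
  rw [LinearMap.range_domRestrict] at h1
  have h2 : Module.finrank F (LinearMap.ker ((LinearMap.fst F V W).domRestrict K)) =
      Module.finrank F (K.comap (LinearMap.inr F V W)) := by
    have e1 : (LinearMap.ker ((LinearMap.fst F V W).domRestrict K)).map K.subtype =
        (K.comap (LinearMap.inr F V W)).map (LinearMap.inr F V W) := by
      ext x
      simp only [Submodule.mem_map, LinearMap.mem_ker, Submodule.mem_comap]
      constructor
      · rintro ⟨y, hy, rfl⟩
        have hy' : y.1.1 = 0 := hy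
        refine ⟨y.1.2, ?_, ?_⟩
        · have e : (LinearMap.inr F V W) y.1.2 = y.1 := Prod.ext hy'.symm rfl
          rw [e]
          exact y.2
        · exact Prod.ext hy'.symm rfl
      · rintro ⟨y, hy, rfl⟩
        exact ⟨⟨_, hy⟩, rfl, rfl⟩
    have e2 := LinearEquiv.finrank_eq (Submodule.equivMapOfInjective (LinearMap.inr F V W)
      LinearMap.inr_injective (K.comap (LinearMap.inr F V W)))
    have e3 := LinearEquiv.finrank_eq (Submodule.equivMapOfInjective K.subtype
      K.injective_subtype (LinearMap.ker ((LinearMap.fst F V W).domRestrict K)))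
    rw [e3, e1, ← e2]
  rw [h2] at h1
  exact h1.symm

private theorem fr_snd {V W : Type*} [AddCommGroup V] [Module F V] [AddCommGroup W] [Module F W]
    (K : Submodule F (V × W)) [FiniteDimensional F K] :
    Module.finrank F K = Module.finrank F (K.map (LinearMap.snd F V W)) +
      Module.finrank F (K.comap (LinearMap.inl F V W)) := by
  have h1 := LinearMap.finrank_range_add_finrank_ker ((LinearMap.snd F V W).domRestrict K)
  rw [LinearMap.range_domRestrict] at h1
  have h2 : Module.finrank F (LinearMap.ker ((LinearMap.snd F V W).domRestrict K)) =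
      Module.finrank F (K.comap (LinearMap.inl F V W)) := by
    have e1 : (LinearMap.ker ((LinearMap.snd F V W).domRestrict K)).map K.subtype =
        (K.comap (LinearMap.inl F V W)).map (LinearMap.inl F V W) := by
      ext x
      simp only [Submodule.mem_map, LinearMap.mem_ker, Submodule.mem_comap]
      constructor
      · rintro ⟨y, hy, rfl⟩
        have hy' : y.1.2 = 0 := hy
        refine ⟨y.1.1, ?_, ?_⟩
        · have e : (LinearMap.inl F V W) y.1.1 = y.1 := Prod.ext rfl hy'.symm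
          rw [e]
          exact y.2
        · exact Prod.ext rfl hy'.symm
      · rintro ⟨y, hy, rfl⟩
        exact ⟨⟨_, hy⟩, rfl, rfl⟩
    have e2 := LinearEquiv.finrank_eq (Submodule.equivMapOfInjective (LinearMap.inl F V W)
      LinearMap.inl_injective (K.comap (LinearMap.inl F V W)))
    have e3 := LinearEquiv.finrank_eq (Submodule.equivMapOfInjective K.subtype
      K.injective_subtype (LinearMap.ker ((LinearMap.snd F V W).domRestrict K)))
    rw [e3, e1, ← e2]
  rw [h2] at h1
  exact h1.symm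

/-- both in `W` -/
private def InV (W : Submodule F (Fin n → F)) (a y : Fin n → F) : Prop := a ∈ W ∧ y ∈ W

private theorem inW_add {a b y z : Fin n → F} (h : InV W a y) (h' : InV W b z) :
    InV W (a + b) (y + z) := ⟨W.add_mem h.1 h'.1, W.add_mem h.2 h'.2⟩

private theorem inW_smul (c : F) {a y : Fin n → F} (h : InV W a y) :
    InV W (c • a) (c • y) :=
  ⟨W.smul_mem c h.1, W.smul_mem c h.2⟩

private theorem inW_zero : InV W (0 : Fin n → F) 0 := ⟨W.zero_mem, W.zero_mem⟩

private theorem inW_z {a : Fin n → F} : InV W a 0 ↔ a ∈ W :=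
  ⟨fun h => h.1, fun h => ⟨h, W.zero_mem⟩⟩

/-- the auxiliary space -/
private def KK (T : FSys P) (B : P →* Matrix (Fin n) (Fin n) F) (ε : P → ZMod 2)
    (W : Submodule F (Fin n → F)) : Submodule F ((P → Fin n → F) × (Fin n → F)) where
  carrier := {v | Z1 T (KT.act B) v.1 ∧ ∃ p : Fin n → F, ∀ d,
    InV W (v.1 d + (B d *ᵥ (p + ε d • v.2) + p)) (B d *ᵥ v.2 + v.2)}
  add_mem' := by
    rintro v w ⟨h1, p, h2⟩ ⟨h1', p', h2'⟩
    refine ⟨(cocS T (B : P → Matrix (Fin n) (Fin n) F)).add_mem h1 h1', p + p', fun d => ?_⟩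
    have e1 : (v + w).1 d + (B d *ᵥ ((p + p') + ε d • (v + w).2) + (p + p')) =
        (v.1 d + (B d *ᵥ (p + ε d • v.2) + p)) + (w.1 d + (B d *ᵥ (p' + ε d • w.2) + p')) := by
      rw [Prod.fst_add, Prod.snd_add, Pi.add_apply, smul_add, mulVec_add, mulVec_add, mulVec_add,
        mulVec_add, mulVec_add]
      abel
    have e2 : B d *ᵥ (v + w).2 + (v + w).2 = (B d *ᵥ v.2 + v.2) + (B d *ᵥ w.2 + w.2) := by
      rw [Prod.snd_add, mulVec_add]
      abel
    rw [e1, e2]
    exact inW_add (h2 d) (h2' d)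
  zero_mem' := ⟨(cocS T (B : P → Matrix (Fin n) (Fin n) F)).zero_mem, 0, fun d => by
    have e1 : (0 : (P → Fin n → F) × (Fin n → F)).1 d + (B d *ᵥ ((0 : Fin n → F) +
        ε d • (0 : (P → Fin n → F) × (Fin n → F)).2) + 0) = 0 := by
      rw [Prod.fst_zero, Prod.snd_zero, Pi.zero_apply, smul_zero, add_zero, add_zero, mulVec_zero,
        add_zero]
    have e2 : B d *ᵥ (0 : (P → Fin n → F) × (Fin n → F)).2 +
        (0 : (P → Fin n → F) × (Fin n → F)).2 = 0 := by
      rw [Prod.snd_zero, mulVec_zero, add_zero]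
    rw [e1, e2]
    exact inW_zero⟩
  smul_mem' := by
    rintro c v ⟨h1, p, h2⟩
    refine ⟨(cocS T (B : P → Matrix (Fin n) (Fin n) F)).smul_mem c h1, c • p, fun d => ?_⟩
    have e1 : (c • v).1 d + (B d *ᵥ (c • p + ε d • (c • v).2) + c • p) =
        c • (v.1 d + (B d *ᵥ (p + ε d • v.2) + p)) := by
      rw [Prod.smul_fst, Prod.smul_snd, Pi.smul_apply, smul_comm (ε d) c v.2, ← smul_add,
        mulVec_smul, smul_add, smul_add]
    have e2 : B d *ᵥ (c • v).2 + (c • v).2 = c • (B d *ᵥ v.2 + v.2) := by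
      rw [Prod.smul_snd, mulVec_smul, smul_add]
    rw [e1, e2]
    exact inW_smul c (h2 d)

private theorem mem_KK {v : (P → Fin n → F) × (Fin n → F)} : v ∈ KK T B ε W ↔
    Z1 T (KT.act B) v.1 ∧ ∃ p : Fin n → F, ∀ d,
      InV W (v.1 d + (B d *ᵥ (p + ε d • v.2) + p)) (B d *ᵥ v.2 + v.2) := Iff.rfl

private theorem fin_KK (hf : Finite {x : P → Fin n → F // Z1 T (KT.act B) x}) :
    Finite (KK T B ε W) := by
  have : Finite ({x : P → Fin n → F // Z1 T (KT.act B) x} × (Fin n → F)) := inferInstance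
  refine Finite.of_injective (β := {x : P → Fin n → F // Z1 T (KT.act B) x} × (Fin n → F))
    (fun v => (⟨v.1.1, v.2.1⟩, v.1.2)) ?_
  intro v w h
  have h1 := congrArg (fun x => x.1.1) h
  have h2 := congrArg (fun x => x.2) h
  exact Subtype.ext (Prod.ext h1 h2)

theorem cnt_R1 (Lc : LocH T χ iv) (headd : ∀ g h, ε (g * h) = ε g + ε h) (hes : Sm1 T ε)
    (o : Ord B W) (hsm : Smooth T (KT.act B))
    (ld : LDual T iv (KT.act B) (KT.act B) (BU : (Fin n → F) →+ (Fin n → F) →+ A0))
    (od : OD T iv B W) (h : FM iv B ε W w₀ M lm) (hL : LInd T B ε W L) :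
    Module.finrank F (R1 L) + Module.finrank F (JW B ε W) = Module.finrank F (LinearMap.ker M) +
      Module.finrank F (EW T B W) + Module.finrank F (fixW B Set.univ W) := by
  classical
  have hsp : ∀ g, IsSp (B g) := o.sp
  have hfin : Finite (KK T B ε W) := fin_KK ld.fin
  have : FiniteDimensional F (KK T B ε W) := Module.Finite.of_finite
  have hinS : ∀ {a y : Fin n → F}, InV W a y → y ∈ W := fun h' => h'.2
  have dbl : ∀ x : Fin n → F, x + x = 0 := fun x => by
    ext i
    exact CharTwo.add_self_eq_zero _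
  -- first projection
  have e1 : (KK T B ε W).map (LinearMap.fst F _ _) = R1 L := by
    ext r
    rw [Submodule.mem_map, mem_R1, hL]
    constructor
    · rintro ⟨v, ⟨hv1, p, hv2⟩, rfl⟩
      refine ⟨⟨(cocS T (B : P → Matrix (Fin n) (Fin n) F)).zero_mem, hv1.1, fun g k => ?_⟩, p, v.2,
        fun d => ?_⟩
      · have e := hv1.2 g k
        show v.1 (g * k) = v.1 g + B g *ᵥ v.1 k + ε g • (B g *ᵥ (0 : P → Fin n → F) k)
        rw [e, Pi.zero_apply, mulVec_zero, smul_zero, add_zero]
        rfl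
      · show InV W (v.1 d + (B d *ᵥ (p + ε d • v.2) + p))
          ((0 : P → Fin n → F) d + (B d *ᵥ v.2 + v.2))
        rw [Pi.zero_apply, zero_add]
        exact hv2 d
    · rintro ⟨⟨-, h2, h3⟩, k, m, h4⟩
      refine ⟨(r, m), ⟨⟨h2, fun g k' => ?_⟩, k, fun d => ?_⟩, rfl⟩
      · have e := h3 g k'
        dsimp only at e
        rw [Pi.zero_apply, mulVec_zero, smul_zero, add_zero] at e
        exact e
      · have e := h4 d
        dsimp only at e
        rw [Pi.zero_apply, zero_add] at e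
        exact e
  -- second projection
  have e2 : (KK T B ε W).map (LinearMap.snd F _ _) =
      (LinearMap.ker M).map (fixW B Set.univ W).subtype := by
    ext m
    rw [Submodule.mem_map, Submodule.mem_map]
    constructor
    · rintro ⟨v, ⟨hv1, p, hv2⟩, rfl⟩
      have hm : v.2 ∈ fixW B Set.univ W := fun d _ => hinS (hv2 d)
      refine ⟨⟨v.2, hm⟩, ?_, rfl⟩
      rw [ker_lift Lc headd hes o hsm od h]
      obtain ⟨W, hW, hWs⟩ := hv1.1
      obtain ⟨We, hWe, hWes⟩ := hes
      obtain ⟨Wp, hWp, hWps⟩ := hsm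
      refine ⟨fun d => v.1 d + (B d *ᵥ (p + ε d • v.2) + p),
        ⟨W ⊓ We ⊓ Wp, T.inf (T.inf hW hWe) hWp, fun g w hw => ?_⟩, fun g => (hv2 g).1, ?_⟩
      · have f1 : v.1 (g * w) = v.1 g := hWs g w hw.1.1
        have f2 : ε (g * w) = ε g := hWes g w hw.1.2
        have f5 : B w *ᵥ (p + ε g • v.2) = p + ε g • v.2 := hWps w hw.2 _
        show v.1 (g * w) + (B (g * w) *ᵥ (p + ε (g * w) • v.2) + p) = _
        rw [f1, f2, map_mul, ← mulVec_mulVec, f5]
      · have hc1 := lift_cob hsp headd (p := v.2) (y := fun g => B g *ᵥ v.2 + v.2) (fun g => rfl)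
        intro g k
        have hc2 := hc1 g k
        dsimp only at hc2 ⊢
        have hz' : v.1 (g * k) = v.1 g + B g *ᵥ v.1 k := hv1.2 g k
        have q1 : B (g * k) *ᵥ p = B g *ᵥ (B k *ᵥ p) := by rw [map_mul, mulVec_mulVec]
        rw [mulVec_add, mulVec_smul, hz', q1, hc2]
        simp only [mulVec_add, mulVec_smul, smul_add]
        have d1 := dbl (B g *ᵥ p)
        have key : ∀ x1 x2 x3 x4 x5 x6 x7 x8 x9 : Fin n → F, x8 + x8 = 0 →
            x1 + x2 + (x3 + (x4 + x5 + (x6 + x7)) + x9) =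
            x1 + (x8 + x4 + x9) + (x2 + (x3 + x5 + x8)) + (x6 + x7) := by
          intro x1 x2 x3 x4 x5 x6 x7 x8 x9 h8
          have e : x1 + (x8 + x4 + x9) + (x2 + (x3 + x5 + x8)) + (x6 + x7) =
            x1 + x2 + (x3 + (x4 + x5 + (x6 + x7)) + x9) + (x8 + x8) := by abel
          rw [e, h8, add_zero]
        exact key _ _ _ _ _ _ _ _ _ d1
    · rintro ⟨m, hm, rfl⟩
      rw [ker_lift Lc headd hes o hsm od h] at hm
      obtain ⟨a, ha, haW, hal⟩ := hm
      refine ⟨(fun d => a d + ε d • (B d *ᵥ m.1), m.1), ⟨⟨?_, fun g k => ?_⟩, 0, fun d => ?_⟩, rfl⟩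
      · obtain ⟨W, hW, hWs⟩ := ha
        obtain ⟨We, hWe, hWes⟩ := hes
        obtain ⟨Wp, hWp, hWps⟩ := hsm
        refine ⟨W ⊓ We ⊓ Wp, T.inf (T.inf hW hWe) hWp, fun g w hw => ?_⟩
        have f1 : a (g * w) = a g := hWs g w hw.1.1
        have f2 : ε (g * w) = ε g := hWes g w hw.1.2
        have f5 : B w *ᵥ m.1 = m.1 := hWps w hw.2 _
        show a (g * w) + ε (g * w) • (B (g * w) *ᵥ m.1) = _
        rw [f1, f2, map_mul, ← mulVec_mulVec, f5]
      · have hc2 := lift_cob hsp headd (p := m.1) (y := fun g => B g *ᵥ m.1 + m.1) (fun g => rfl) g k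
        have hal2 := hal g k
        dsimp only at hc2 hal2 ⊢
        rw [hal2, hc2]
        show _ = a g + ε g • B g *ᵥ m.1 + B g *ᵥ (a k + ε k • B k *ᵥ m.1)
        rw [mulVec_add (B g) (a k)]
        have key : ∀ x1 x2 x3 x4 x5 : Fin n → F, x5 + x5 = 0 →
            x1 + x2 + x5 + (x3 + x4 + x5) = x1 + x3 + (x2 + x4) := by
          intro x1 x2 x3 x4 x5 h5
          have e : x1 + x2 + x5 + (x3 + x4 + x5) = x1 + x3 + (x2 + x4) + (x5 + x5) := by abel
          rw [e, h5, add_zero]
        exact key _ _ _ _ _ (dbl _)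
      · have e : a d + ε d • (B d *ᵥ m.1) + (B d *ᵥ (0 + ε d • m.1) + 0) = a d := by
          rw [zero_add, add_zero, mulVec_smul, add_assoc, dbl, add_zero]
        show InV W (a d + ε d • (B d *ᵥ m.1) + (B d *ᵥ (0 + ε d • m.1) + 0)) (B d *ᵥ m.1 + m.1)
        rw [e]
        exact ⟨haW d, m.2 d (Set.mem_univ d)⟩
  -- kernels
  have e3 : (KK T B ε W).comap (LinearMap.inl F _ _) = EW T B W := by
    ext r
    rw [Submodule.mem_comap, mem_EW]
    constructor
    · rintro ⟨h1, p, h2⟩
      refine ⟨h1, p, fun g => ?_⟩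
      have e := h2 g
      have e4 : InV W (r g + (B g *ᵥ (p + ε g • (0 : Fin n → F)) + p)) (B g *ᵥ 0 + 0) := e
      rw [smul_zero, add_zero, mulVec_zero, add_zero, inW_z] at e4
      exact e4
    · rintro ⟨h1, p, h2⟩
      refine ⟨h1, p, fun g => ?_⟩
      show InV W (r g + (B g *ᵥ (p + ε g • (0 : Fin n → F)) + p)) (B g *ᵥ 0 + 0)
      rw [smul_zero, add_zero, mulVec_zero, add_zero, inW_z]
      exact h2 g
  have e5 : (JW B ε W).map (LinearMap.snd F _ _) =
      (KK T B ε W).comap (LinearMap.inr F _ _) := by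
    ext m
    rw [Submodule.mem_map, Submodule.mem_comap]
    constructor
    · rintro ⟨v, hv, rfl⟩
      refine ⟨(cocS T (B : P → Matrix (Fin n) (Fin n) F)).zero_mem, v.1, fun d => ?_⟩
      have e := hv d
      show InV W ((0 : P → Fin n → F) d + (B d *ᵥ (v.1 + ε d • v.2) + v.1)) (B d *ᵥ v.2 + v.2)
      rw [Pi.zero_apply, zero_add]
      exact e
    · rintro ⟨-, p, hp⟩
      refine ⟨(p, m), fun d => ?_, rfl⟩
      have e := hp d
      have e4 : InV W ((0 : P → Fin n → F) d + (B d *ᵥ (p + ε d • m) + p)) (B d *ᵥ m + m) := e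
      rw [Pi.zero_apply, zero_add] at e4
      exact e4
  have e6 : (JW B ε W).comap (LinearMap.inl F _ _) = fixW B Set.univ W := by
    ext p
    rw [Submodule.mem_comap, mem_fixW]
    constructor
    · intro hp d _
      have e4 : InV W (B d *ᵥ (p + ε d • (0 : Fin n → F)) + p) (B d *ᵥ 0 + 0) := hp d
      rw [smul_zero, add_zero, mulVec_zero, add_zero, inW_z] at e4
      exact e4
    · intro hp d
      show InV W (B d *ᵥ (p + ε d • (0 : Fin n → F)) + p) (B d *ᵥ 0 + 0)
      rw [smul_zero, add_zero, mulVec_zero, add_zero, inW_z]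
      exact hp d trivial
  have f1 := fr_fst (KK T B ε W)
  have f2 := fr_snd (KK T B ε W)
  have f3 := fr_snd (JW B ε W)
  have f4 : Module.finrank F ((LinearMap.ker M).map (fixW B Set.univ W).subtype) =
      Module.finrank F (LinearMap.ker M) := Submodule.finrank_map_subtype_eq _ _
  rw [e1] at f1
  rw [e2, e3, f4] at f2
  rw [e5, e6] at f3
  omega

theorem cnt_main (Lc : LocH T χ iv) (headd : ∀ g h, ε (g * h) = ε g + ε h) (hes : Sm1 T ε)
    (o : Ord B W) (hsm : Smooth T (KT.act B))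
    (ld : LDual T iv (KT.act B) (KT.act B) (BU : (Fin n → F) →+ (Fin n → F) →+ A0))
    (od : OD T iv B W) (h : FM iv B ε W w₀ M lm) (hL : LInd T B ε W L) (hk : LKr T iv B ε L) :
    (Module.finrank F (R1 L) : ℤ) = Module.finrank F (Y2 L) +
      2 * ((Module.finrank F (LinearMap.ker M) : ℤ) + Module.finrank F (fixW B Set.univ W) -
        Module.finrank F (JW B ε W)) := by
  have hsp : ∀ g, IsSp (B g) := o.sp
  have h1 := cnt_R1 Lc headd hes o hsm ld od h hL
  have h2 := finrank_perp Lc hsp hsm ld (X := Y2 L) (X2 := R1 L)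
    (fun y hy => by
      obtain ⟨a, ha⟩ := (mem_Y2 L).1 hy
      exact (hk.coc _ ha).1)
    (fun x hx => by
      obtain ⟨m, hm⟩ := mem_cobS.1 hx
      obtain ⟨a, ha⟩ := hk.cob m
      rw [mem_Y2]
      refine ⟨a, ?_⟩
      have e : x = fun d => B d *ᵥ m + m := funext hm
      rw [e]
      exact ha)
    (fun x => by
      rw [mem_R1, hk.rel]
      constructor
      · rintro ⟨h1, h2⟩
        refine ⟨h1, fun y hy => ?_⟩
        obtain ⟨a, ha⟩ := (mem_Y2 L).1 hy
        exact h2 _ ha
      · rintro ⟨h1, h2⟩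
        exact ⟨h1, fun p hp => h2 _ ((mem_Y2 L).2 ⟨p.1, hp⟩)⟩)
  have h3 := finrank_EW Lc o hsm ld od
  omega

end Pool.Agent.Work.MP_787500_nt.OR
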