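import Mathlib
import Pool.Agent.Work.MP_787500_nt.OR.Defs
import Pool.Agent.Work.MP_787500_nt.QS.IndLag
/-!
# Module Od (size M-L): local duality for a submodule and its quotient

* `pair_sub`: general: `V` a finite module, `B₀ : V →+ V →+ A0` with `B₀ (σ g v) (σ g w) = χ g • B₀ v w`, `W` a stable submodule with `v ∈ W ↔ ∀ w ∈ W, B₀ w v = 0` and `B₀ v w = 0 → ...` nondegenerate: then `W` (as a type) and
  `V ⧸ W` with the induced actions `subA`, `quoA` and the pairing `gam` (`gam w (mk v) = B₀ w v`) form a `Pair`, and so do `V ⧸ W` and `W` with the flipped pairing (also a `Pair`, by symmetry of the definition).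
* `od_of`: `LocD.ld` for the pair (`W`, `U ⧸ W`), `B₀ = BU`: `one`: `LDual.one1` for `mk ∘ x`: for every smooth cocycle `w` of `W`, `iv (cup11 quoA gam w (mk ∘ x)) = iv (cup11 (act B) BU w x) = 0`, so `mk ∘ x = d0 quoA (mk m)`.
  `two`: `LDual.two` for the flipped pair, the 2-cocycle `f` with values in `W`; a fixed vector of `U ⧸ W` is `mk z` with `B g z + z ∈ W` for all `g`; `B2` gives `a` (signs: characteristic 2).
* `lag_indW`: `QS.ind_lag` for the flag `V₁ = U = W`, `Vb = PUnit`, `Q = R = V ⧸ W`, `Yb = ⊤` (`indY = indW`), or directly: isotropy of `indW` by the coboundary lemmas of QS/Th (`Lag.cob`, `iv_symm`, `iv_Zq_cob`),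
  the converse inclusion by `LDual.one1` for the pair (`W`, `V ⧸ W`).
-/

set_option autoImplicit false
set_option linter.unusedSectionVars false

namespace Pool.Agent.Work.MP_787500_nt.OR

open Matrix
open Pool.Agent.Work.MP_787500_nt.GP (A0 hf hf_add hf_zero hf_two hf_neg smul_hf IsAct d0 d1 d2 tw cup11
  cup02 EvPow)
open Pool.Agent.Work.MP_787500_nt.KR (FSys Sm1 Sm2 IsChar Smooth Z1 Z2 B2 LocH Pair LDual LocD zM
  cup11_Z2)
open Pool.Agent.Work.MP_787500_nt.KT hiding Str Rel Sel KH Ai IsP cc ff TT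
open Pool.Agent.Work.MP_787500_nt.KS (hfT hfT_apply hfT_sq hfT_two hfT_neg smul_hfT hfT_nondeg hfT_smul
  inv_zero smul_F dF1 rt rt_sq sm_eps sm1_one sm1_two zmod2_cases hfT_eps_sq exists_mul hfT_eq
  trace_trick sym_rank ann mem_ann finrank_ann ep)
open Pool.Agent.Work.MP_787500_nt.KI
open Pool.Agent.Work.MP_787500_nt.QS (Two ac2 be2 la2 Lag QM pB Zq)


universe v

section pairs

variable {P : Type*} [Group P] {T : FSys P} {χ : P → ℤ_[2]} {iv : (P → P → A0) → A0}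
  {V : Type v} [AddCommGroup V] {σ : P → V → V} {B₀ : V →+ V →+ A0} {W : AddSubgroup V}

/-- the action on the subgroup -/
private def subA (hst : ∀ g, ∀ w ∈ W, σ g w ∈ W) : P → W → W := fun g w => ⟨σ g w, hst g w w.2⟩

/-- the action on the quotient -/
private def quoA (act : IsAct σ) (hst : ∀ g, ∀ w ∈ W, σ g w ∈ W) : P → V ⧸ W → V ⧸ W :=
  fun g => QuotientAddGroup.map W W (AddMonoidHom.mk' (σ g) (act.add g)) (fun w hw => hst g w hw)

private theorem quoA_mk (act : IsAct σ) (hst : ∀ g, ∀ w ∈ W, σ g w ∈ W) (g : P) (v : V) :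
    quoA act hst g (QuotientAddGroup.mk' W v) = QuotientAddGroup.mk' W (σ g v) := rfl

/-- the pairing of the subgroup and the quotient -/
private noncomputable def gam (hi : ∀ v ∈ W, ∀ w ∈ W, B₀ v w = 0) : W →+ (V ⧸ W) →+ A0 :=
  AddMonoidHom.mk' (fun w => QuotientAddGroup.lift W (B₀ w) (fun v hv => hi w w.2 v hv))
    (fun w w' => by
      ext v
      show B₀ ((w + w' : W) : V) v = B₀ w v + B₀ w' v
      rw [AddSubgroup.coe_add, map_add]
      rfl)

private theorem gam_mk (hi : ∀ v ∈ W, ∀ w ∈ W, B₀ v w = 0) (w : W) (v : V) :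
    gam hi w (QuotientAddGroup.mk' W v) = B₀ w v := rfl

private theorem pair_sq (act : IsAct σ) (hst : ∀ g, ∀ w ∈ W, σ g w ∈ W)
    (hi : ∀ v ∈ W, ∀ w ∈ W, B₀ v w = 0) (hsm : Smooth T σ)
    (heq : ∀ g v w, B₀ (σ g v) (σ g w) = χ g • B₀ v w)
    (hp : ∀ v, (∀ w ∈ W, B₀ w v = 0) → v ∈ W) (hnd : ∀ w, (∀ v, B₀ w v = 0) → w = 0) :
    Pair T χ (subA hst) (quoA act hst) (gam hi) where
  act := {
    one := fun m => Subtype.ext (act.one _)
    mul := fun g h m => Subtype.ext (act.mul g h _)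
    add := fun g m m' => Subtype.ext (act.add g _ _) }
  act' := {
    one := fun m => by
      obtain ⟨m, rfl⟩ := QuotientAddGroup.mk'_surjective W m
      rw [quoA_mk, act.one]
    mul := fun g h m => by
      obtain ⟨m, rfl⟩ := QuotientAddGroup.mk'_surjective W m
      rw [quoA_mk, quoA_mk, quoA_mk, act.mul]
    add := fun g m m' => map_add _ m m' }
  sm := by
    obtain ⟨U, hU, h1⟩ := hsm
    exact ⟨U, hU, fun w hw m => Subtype.ext (h1 w hw m)⟩
  sm' := by
    obtain ⟨U, hU, h1⟩ := hsm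
    refine ⟨U, hU, fun w hw m => ?_⟩
    obtain ⟨m, rfl⟩ := QuotientAddGroup.mk'_surjective W m
    rw [quoA_mk, h1 w hw]
  eqv g m m' := by
    obtain ⟨m', rfl⟩ := QuotientAddGroup.mk'_surjective W m'
    rw [quoA_mk, gam_mk, gam_mk]
    exact heq g m m'
  nd m h := Subtype.ext (hnd m fun v => h (QuotientAddGroup.mk' W v))
  nd' m' h := by
    obtain ⟨m', rfl⟩ := QuotientAddGroup.mk'_surjective W m'
    have h1 : m' ∈ W := hp m' fun w hw => h ⟨w, hw⟩
    exact (QuotientAddGroup.eq_zero_iff m').2 h1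

variable [Finite V]

private theorem od_one (p : LocD.{v} T χ iv) (act : IsAct σ) (hst : ∀ g, ∀ w ∈ W, σ g w ∈ W)
    (hi : ∀ v ∈ W, ∀ w ∈ W, B₀ v w = 0) (hsm : Smooth T σ)
    (heq : ∀ g v w, B₀ (σ g v) (σ g w) = χ g • B₀ v w)
    (hp : ∀ v, (∀ w ∈ W, B₀ w v = 0) → v ∈ W) (hnd : ∀ w, (∀ v, B₀ w v = 0) → w = 0)
    (x : P → V) (hx : Z1 T σ x)
    (h : ∀ y, Z1 T σ y → (∀ g, y g ∈ W) → iv (cup11 σ B₀ y x) = 0) :
    ∃ m, ∀ g, x g - d0 σ m g ∈ W := by
  have hL := p.ld (pair_sq act hst hi hsm heq hp hnd)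
  have hx' : Z1 T (quoA act hst) (fun g => QuotientAddGroup.mk' W (x g)) := by
    refine ⟨?_, fun a b => ?_⟩
    · obtain ⟨U, hU, h1⟩ := hx.1
      exact ⟨U, hU, fun g w hw => congrArg _ (h1 g w hw)⟩
    · show QuotientAddGroup.mk' W (x (a * b)) = QuotientAddGroup.mk' W (x a) + _
      rw [quoA_mk, hx.2 a b, map_add]
  obtain ⟨m, hm⟩ := hL.one' _ hx' fun y hy => by
    refine h (fun g => (y g : V)) ⟨?_, fun a b => ?_⟩ (fun g => (y g).2)
    · obtain ⟨U, hU, h1⟩ := hy.1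
      exact ⟨U, hU, fun g w hw => congrArg _ (h1 g w hw)⟩
    · show ((y (a * b) : W) : V) = _
      rw [hy.2 a b]
      rfl
  obtain ⟨m, rfl⟩ := QuotientAddGroup.mk'_surjective W m
  refine ⟨m, fun g => (QuotientAddGroup.eq_zero_iff (x g - d0 σ m g)).1 ?_⟩
  have h2 := congrFun hm g
  have h3 : QuotientAddGroup.mk' W (x g) = QuotientAddGroup.mk' W (σ g m - m) := by
    rw [map_sub]
    exact h2
  have h4 : QuotientAddGroup.mk' W (x g - d0 σ m g) = 0 := by
    rw [map_sub, h3]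
    exact sub_self _
  exact h4

private theorem od_two (p : LocD.{v} T χ iv) (act : IsAct σ) (hst : ∀ g, ∀ w ∈ W, σ g w ∈ W)
    (hi : ∀ v ∈ W, ∀ w ∈ W, B₀ v w = 0) (hsm : Smooth T σ)
    (heq : ∀ g v w, B₀ (σ g v) (σ g w) = χ g • B₀ v w)
    (hp : ∀ v, (∀ w ∈ W, B₀ w v = 0) → v ∈ W) (hnd : ∀ w, (∀ v, B₀ w v = 0) → w = 0)
    (f : P → P → V) (hf : Z2 T σ f) (hfW : ∀ s t, f s t ∈ W)
    (h : ∀ z, (∀ g, σ g z - z ∈ W) → iv (fun s t => B₀ (f s t) z) = 0) :
    ∃ a : P → V, Sm1 T a ∧ (∀ g, a g ∈ W) ∧ f = d1 σ a := by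
  have hL := p.ld (pair_sq act hst hi hsm heq hp hnd).flip
  have hF : Z2 T (subA hst) (fun s t => (⟨f s t, hfW s t⟩ : W)) := by
    refine ⟨?_, fun a b c => Subtype.ext (hf.2 a b c)⟩
    obtain ⟨U, hU, h1⟩ := hf.1
    exact ⟨U, hU, fun g k w hw w' hw' => Subtype.ext (h1 g k w hw w' hw')⟩
  obtain ⟨a, ha, hfa⟩ := hL.two _ hF fun z hz => by
    obtain ⟨z, rfl⟩ := QuotientAddGroup.mk'_surjective W z
    refine h z fun g => (QuotientAddGroup.eq_zero_iff (σ g z - z)).1 ?_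
    have h1 := hz g
    rw [quoA_mk] at h1
    have h2 : QuotientAddGroup.mk' W (σ g z - z) = 0 := by
      rw [map_sub, h1, sub_self]
    exact h2
  refine ⟨fun g => (a g : V), ?_, fun g => (a g).2, ?_⟩
  · obtain ⟨U, hU, h1⟩ := ha
    exact ⟨U, hU, fun g w hw => congrArg _ (h1 g w hw)⟩
  · funext s t
    have h1 := congrFun (congrFun hfa s) t
    exact congrArg Subtype.val h1

end pairs

section gen

variable {P : Type*} [Group P] {T : FSys P} {χ : P → ℤ_[2]} {iv : (P → P → A0) → A0}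
  {O : Type*} [CommRing O] {V : Type v} [AddCommGroup V] [Module O V] [Finite V] {σ : P → V → V}
  {β : V →+ V →+ A0} {l : O → P → V → A0} {W : Submodule O V}

theorem lag_indW (p : LocD.{v} T χ iv) (hq : QM T χ O σ β l) (hst : ∀ g, ∀ w ∈ W, σ g w ∈ W)
    (hβ : ∀ v ∈ W, ∀ w ∈ W, β v w = 0) (hl : ∀ a g, ∀ v ∈ W, l a g v = 0)
    (hp : ∀ v, (∀ w ∈ W, pB β w v = 0) → v ∈ W) :
    Lag T iv σ β l (indW T hq.act hq.lin W) := by
  have hL : LocH T χ iv := p.toLocH
  have hB0 : ∀ v ∈ W, ∀ w ∈ W, pB β v w = 0 := fun v hv w hw => by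
    rw [QS.pB_apply, hβ v hv w hw, hβ w hw v hv, sub_zero]
  -- decomposition
  have hdec : ∀ x, x ∈ indW T hq.act hq.lin W → ∃ (w : P → V) (m : V), Z1 T σ w ∧
      (∀ d, w d ∈ W) ∧ x = w + d0 σ m := by
    rintro x ⟨hx, m, hm⟩
    have hm1 := KR.d0_Z1 hq.act hq.sm m (S := T)
    have hn1 := KR.d0_Z1 hq.act hq.sm (-m) (S := T)
    refine ⟨fun d => x d - d0 σ m d, m, ?_, hm, ?_⟩
    · exact (zM T hq.act hq.lin).sub_mem hx hm1
    · funext d
      simp only [Pi.add_apply, sub_add_cancel]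
  refine ⟨fun x hx => hx.1, fun x hx => ⟨fun h y hy => ?_, fun h => ?_⟩, fun a x hx => ?_⟩
  · obtain ⟨w, m, hw1, hw2, rfl⟩ := hdec x h
    obtain ⟨w', m', hw1', hw2', rfl⟩ := hdec y hy
    have e1 : cup11 σ (pB β) (w + d0 σ m) (w' + d0 σ m') = fun s t =>
        cup11 σ (pB β) w (w' + d0 σ m') s t + cup11 σ (pB β) (d0 σ m) (w' + d0 σ m') s t := by
      funext s t
      show pB β (w s + d0 σ m s) _ = _
      rw [map_add]
      rfl
    have hm1 := KR.d0_Z1 hq.act hq.sm m (S := T)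
    rw [e1, hL.add _ _ (KR.cup11_Z2 hq.pair hw1 hy.1) (KR.cup11_Z2 hq.pair hm1 hy.1),
      QS.iv_cup_d0 hL hq hy.1, add_zero, QS.iv_symm hL hq hw1 hy.1]
    have e2 : cup11 σ (pB β) (w' + d0 σ m') w = fun s t =>
        cup11 σ (pB β) w' w s t + cup11 σ (pB β) (d0 σ m') w s t := by
      funext s t
      show pB β (w' s + d0 σ m' s) _ = _
      rw [map_add]
      rfl
    have hm1' := KR.d0_Z1 hq.act hq.sm m' (S := T)
    rw [e2, hL.add _ _ (KR.cup11_Z2 hq.pair hw1' hw1) (KR.cup11_Z2 hq.pair hm1' hw1),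
      QS.iv_cup_d0 hL hq hw1, add_zero]
    have e3 : cup11 σ (pB β) w' w = d1 (tw χ) (fun _ => 0) := by
      funext s t
      show pB β (w' s) (σ s (w t)) = 0 + χ s • (0 : A0) - 0
      rw [hB0 _ (hw2' s) _ (hst s _ (hw2 t)), smul_zero, add_zero, sub_zero]
    rw [e3]
    refine hL.cob _ ?_
    obtain ⟨U, hU⟩ := T.ex
    exact ⟨U, hU, fun _ _ _ => rfl⟩
  · refine ⟨hx, od_one (W := W.toAddSubgroup) p hq.act hst hB0 hq.sm
      (fun g v w => QS.pB_eqv hq g v w) hp hq.nd x hx fun y hy hyW => ?_⟩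
    rw [QS.iv_symm hL hq hy hx]
    refine h y ⟨hy, 0, fun d => ?_⟩
    have e : y d - d0 σ 0 d = y d := by simp [d0, hq.act.zero]
    rw [e]
    exact hyW d
  · obtain ⟨w, m, hw1, hw2, rfl⟩ := hdec x hx
    rw [QS.iv_Zq_cob hL hq hw1]
    have e3 : QS.Zq σ β l a w = d1 (tw χ) (fun _ => 0) := by
      funext s t
      show β (a • w s) (σ s (w t)) + l a s (w t) = 0 + χ s • (0 : A0) - 0
      rw [hβ _ (W.smul_mem a (hw2 s)) _ (hst s _ (hw2 t)), hl a s _ (hw2 t), smul_zero, add_zero,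
        sub_zero]
    rw [e3]
    refine hL.cob _ ?_
    obtain ⟨U, hU⟩ := T.ex
    exact ⟨U, hU, fun _ _ _ => rfl⟩

end gen

variable {F : Type v} [Field F] [Finite F] [CharP F 2] [Algebra (ZMod 2) F] {n : ℕ} [Sy F n]
  {P : Type*} [Group P] {T : FSys P} {χ : P → ℤ_[2]} {iv : (P → P → A0) → A0}
  {B : P →* Matrix (Fin n) (Fin n) F} {W : Submodule F (Fin n → F)}

theorem od_of (p : LocD.{v} T χ iv) (o : Ord B W) (hsm : Smooth T (KT.act B)) : OD T iv B W := by
  have hact : IsAct (KT.act B) := KT.isAct_act B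
  have hP := KT.pair_BU p.char o.sp hsm
  have hi : ∀ v ∈ W.toAddSubgroup, ∀ w ∈ W.toAddSubgroup, (BU v w : A0) = 0 := fun v hv w hw => by
    rw [KT.BU_apply, (o.lg v).1 hv w hw, map_zero]
  have hp : ∀ v, (∀ w ∈ W.toAddSubgroup, (BU w v : A0) = 0) → v ∈ W.toAddSubgroup := fun v hv => by
    refine (o.lg v).2 fun y hy => hfT_nondeg fun a => ?_
    rw [← KT.ee_smul_right, KT.ee_comm]
    exact hv (a • y) (W.smul_mem a hy)
  have hst : ∀ g, ∀ w ∈ W.toAddSubgroup, KT.act B g w ∈ W.toAddSubgroup := fun g w hw => o.st g w hw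
  refine ⟨fun x hx h => ?_, fun f hf1 hf2 hf3 h => ?_⟩
  · obtain ⟨m, hm⟩ := od_one (W := W.toAddSubgroup) p hact hst hi hsm hP.eqv hp hP.nd x hx h
    refine ⟨m, fun g => ?_⟩
    have h1 := hm g
    rw [KT.d0_act] at h1
    have e : x g + (B g *ᵥ m + m) = x g - (B g *ᵥ m + m) := by
      ext i
      rw [Pi.sub_apply, Pi.add_apply, sub_eq_add_neg, CharTwo.neg_eq]
    rw [e]
    exact h1
  · have hneg : ∀ v : Fin n → F, -v = v := fun v => by
      ext i
      rw [Pi.neg_apply, CharTwo.neg_eq]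
    have hf : Z2 T (KT.act B) f := by
      refine ⟨hf1, fun a b c => ?_⟩
      have h1 := hf3 a b c
      show B a *ᵥ f b c - f (a * b) c + f a (b * c) - f a b = 0
      rw [sub_eq_add_neg, sub_eq_add_neg, hneg, hneg]
      exact h1
    obtain ⟨a, ha1, ha2, ha3⟩ := od_two (W := W.toAddSubgroup) p hact hst hi hsm hP.eqv hp hP.nd f hf
      hf2 fun z hz => by
        have h1 := h z fun g => by
          have h2 := hz g
          have e : B g *ᵥ z + z = KT.act B g z - z := by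
            show B g *ᵥ z + z = B g *ᵥ z - z
            rw [sub_eq_add_neg, hneg]
          rw [e]
          exact h2
        have e2 : (fun s t => (BU (f s t) z : A0)) = fun s t => hfT (ee z (f s t)) := by
          funext s t
          rw [KT.BU_apply, KT.ee_comm]
        rw [e2]
        exact h1
    refine ⟨a, ha1, ha2, fun s t => ?_⟩
    rw [ha3]
    show a s + B s *ᵥ a t - a (s * t) = _
    rw [sub_eq_add_neg, hneg]

end Pool.Agent.Work.MP_787500_nt.OR
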