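import Mathlib
import Pool.Agent.Work.MP_787500_nt.OR.Defs
import Pool.Agent.Work.MP_787500_nt.OR.Od
/-!
# Module TwoC (size M): the induced condition for `U × U`

`σ d = ac2 e c κ (KT.act (A.comp e)) (jp d)`, in the coordinates `th A c (a, y) = (a, A c (a + y))` (KI/InertD): `σ d (th (a, y)) = th (A (jp d) (a + ε d • y), A (jp d) y)` (`ac2_th`, `ap`).
* `th_W2`: `th A c (a, y) ∈ W2 A c W ↔ a ∈ W ∧ y ∈ W` (`A_cc`).
* `lag_two`: `lag_indW`: stability (`th_W2`, `o.st`); `be2 (bC A c) v w = hfT (ee v.1 (A c w.2)) = 0` on `W2`; `la2 .. a (jp d) v` is `0` or `be2 (a • σ d v) (σ d v)`, which is `0` by stability (unfold `la2`, `split_ifs`);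
  `pB (be2 ..) (th (a, y)) (th (a1, y1)) = hfT (ee a y1 + ee y a1)` (compute with `be2_apply`, `bC_apply`, `A_cc`), so a vector orthogonal to `W2` has `ee a y1 = 0` for all `y1 ∈ W` up to `hfT` (`hfT_nondeg` with multiples), i.e. `a ∈ W`, same for `y`.
* `lInd_two`: `mem_LY`, `Z1_th`, `Z1_ap` and `x d - d0 σ (th (k, m)) d = th (p.1 d + (B d (k + ε d • m) + k), p.2 d + (B d m + m))` (`th_sub`, characteristic 2; `th_surj`).
* `finrank_two`: `th` is a linear isomorphism of `JW` onto `fixV`.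
-/

set_option autoImplicit false
set_option linter.unusedSectionVars false

namespace Pool.Agent.Work.MP_787500_nt.OR

open Matrix
open Pool.Agent.Work.MP_787500_nt.GP (A0 hf hf_add hf_zero hf_two hf_neg smul_hf IsAct d0 d1 d2 tw cup11
  cup02 EvPow)
open Pool.Agent.Work.MP_787500_nt.KR (FSys Sm1 Sm2 IsChar Smooth Z1 Z2 B2 LocH Pair LDual LocD zM
  cup11_Z2)
open Pool.Agent.Work.MP_787500_nt.KT hiding Str Rel Sel KH Ai IsP cc ff TT
open Pool.Agent.Work.MP_787500_nt.KS (hfT hfT_apply hfT_sq hfT_two hfT_neg smul_hfT hfT_nondeg hfT_smul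
  inv_zero smul_F dF1 rt rt_sq sm_eps sm1_one sm1_two zmod2_cases hfT_eps_sq exists_mul hfT_eq
  trace_trick sym_rank ann mem_ann finrank_ann ep)
open Pool.Agent.Work.MP_787500_nt.KI
open Pool.Agent.Work.MP_787500_nt.QS (Two ac2 be2 la2 Lag QM pB Zq)


universe v

variable {F : Type v} [Field F] [Finite F] [CharP F 2] [Algebra (ZMod 2) F] {n : ℕ} [Sy F n]
  {G Γ : Type*} [Group G] [Group Γ] {e : G →* Γ} {c : Γ} {κ : G →* G}
  {A : Γ →* Matrix (Fin n) (Fin n) F} {P : Type*} [Group P] {T : FSys P} {jp : P →* Γ}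
  {χ : P → ℤ_[2]} {iv : (P → P → A0) → A0} {W : Submodule F (Fin n → F)}

private theorem sub_add' (w v : Fin n → F) : w - v = w + v := by
  rw [sub_eq_iff_eq_add, add_assoc, U_add_self, add_zero]

private theorem th_W2 (X : Two e c κ) (u : (Fin n → F) × (Fin n → F)) :
    th A c u ∈ W2 A c W ↔ u.1 ∈ W ∧ u.2 ∈ W := by
  rw [mem_W2]
  show u.1 ∈ W ∧ A c *ᵥ (A c *ᵥ (u.1 + u.2)) ∈ W ↔ _
  rw [A_cc X]
  refine and_congr_right fun h => ?_
  exact W.add_mem_iff_right h

private theorem ac_W2 (X : Two e c κ) (hst : ∀ g, ∀ x ∈ W, (A.comp jp) g *ᵥ x ∈ W) (d : P)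
    {v : (Fin n → F) × (Fin n → F)} (hv : v ∈ W2 A c W) :
    ac2 e c κ (KT.act (A.comp e)) (jp d) v ∈ W2 A c W := by
  obtain ⟨u, rfl⟩ := th_surj (A := A) X v
  rw [ac2_th X, th_W2 X]
  rw [th_W2 X] at hv
  exact ⟨hst d _ (W.add_mem hv.1 (W.smul_of_tower_mem _ hv.2)), hst d _ hv.2⟩

private theorem be_W2 (hl : IsLg W) {v w : (Fin n → F) × (Fin n → F)} (hv : v ∈ W2 A c W)
    (hw : w ∈ W2 A c W) : be2 (bC A c) v w = 0 := by
  have h : ee v.1 (A c *ᵥ w.2) = 0 := (hl v.1).1 hv.1 _ hw.2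
  rw [QS.be2_apply, bC_apply, h, map_zero]

private theorem pB_th (X : Two e c κ) (p q : (Fin n → F) × (Fin n → F)) :
    pB (be2 (bC A c)) (th A c p) (th A c q) = hfT (ee p.1 q.2 + ee p.2 q.1) := by
  have be_th : ∀ p q : (Fin n → F) × (Fin n → F), be2 (bC A c) (th A c p) (th A c q) =
      hfT (ee p.1 (q.1 + q.2)) := by
    intro p q
    rw [QS.be2_apply, bC_apply]
    show hfT (ee p.1 (A c *ᵥ (A c *ᵥ (q.1 + q.2)))) = _
    rw [A_cc X]
  rw [QS.pB_apply, be_th, be_th, sub_eq_add_neg, hfT_neg, ← map_add]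
  congr 1
  simp only [ee_add_right, ee_comm q.1 p.1, ee_comm q.1 p.2]
  linear_combination (norm := (ring_nf; reduce_mod_char!))

private theorem fix_iff (X : Two e c κ) (d : P) (u : (Fin n → F) × (Fin n → F)) :
    ac2 e c κ (KT.act (A.comp e)) (jp d) (th A c u) - th A c u ∈ W2 A c W ↔
      (A.comp jp) d *ᵥ (u.1 + ep e (jp d) • u.2) + u.1 ∈ W ∧ (A.comp jp) d *ᵥ u.2 + u.2 ∈ W := by
  rw [ac2_th X, ← th_sub, th_W2 X, ← sub_add' _ u.1, ← sub_add' _ u.2]
  exact Iff.rfl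

/-- `th` as a linear equivalence -/
private noncomputable def thL (A : Γ →* Matrix (Fin n) (Fin n) F) (X : Two e c κ) :
    ((Fin n → F) × (Fin n → F)) ≃ₗ[F] ((Fin n → F) × (Fin n → F)) :=
  LinearEquiv.ofBijective
    { toFun := KI.th A c
      map_add' := th_add
      map_smul' := fun a u => by
        refine Prod.ext rfl ?_
        show A c *ᵥ (a • u.1 + a • u.2) = a • (A c *ᵥ (u.1 + u.2))
        rw [← smul_add, mulVec_smul] }
    ⟨fun _ _ h => th_inj (A := A) X h, fun v => th_surj (A := A) X v⟩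

theorem lag_two (X : Two e c κ) (p : LocD.{v} T χ iv) (o : Ord (A.comp jp) W)
    (hq : QM T χ F (fun d => ac2 e c κ (KT.act (A.comp e)) (jp d)) (be2 (bC A c))
      (fun (a : F) d => la2 e c κ (KT.act (A.comp e)) (bC A c) a (jp d))) :
    Lag T iv (fun d => ac2 e c κ (KT.act (A.comp e)) (jp d)) (be2 (bC A c))
      (fun (a : F) d => la2 e c κ (KT.act (A.comp e)) (bC A c) a (jp d))
      (indW T hq.act hq.lin (W2 A c W)) := by
  refine lag_indW p hq (fun g w hw => ac_W2 X o.st g hw) (fun v hv w hw => be_W2 o.lg hv hw)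
    (fun a g v hv => ?_) (fun v hv => ?_)
  · show la2 e c κ (KT.act (A.comp e)) (bC A c) a (jp g) v = 0
    unfold la2
    split_ifs
    · rfl
    · exact be_W2 o.lg ((W2 A c W).smul_mem a (ac_W2 X o.st g hv)) (ac_W2 X o.st g hv)
  · obtain ⟨u, rfl⟩ := th_surj (A := A) X v
    rw [th_W2 X]
    refine ⟨(o.lg u.1).2 fun y hy => ?_, (o.lg u.2).2 fun y hy => ?_⟩
    · refine hfT_nondeg fun a => ?_
      have h := hv (th A c (0, a • y)) ((th_W2 X _).2 ⟨W.zero_mem, W.smul_mem a hy⟩)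
      rw [pB_th X] at h
      rw [← h]
      congr 1
      show a * ee u.1 y = ee 0 u.2 + ee (a • y) u.1
      rw [ee_zero_left, zero_add, ee_smul_left, ee_comm]
    · refine hfT_nondeg fun a => ?_
      have h := hv (th A c (a • y, 0)) ((th_W2 X _).2 ⟨W.smul_mem a hy, W.zero_mem⟩)
      rw [pB_th X] at h
      rw [← h]
      congr 1
      show a * ee u.2 y = ee (a • y) u.2 + ee 0 u.1
      rw [ee_zero_left, add_zero, ee_smul_left, ee_comm]

theorem lInd_two (X : Two e c κ)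
    (act : IsAct fun d => ac2 e c κ (KT.act (A.comp e)) (jp d))
    (lin : ∀ (d : P) (a : F) m, ac2 e c κ (KT.act (A.comp e)) (jp d) (a • m) =
      a • ac2 e c κ (KT.act (A.comp e)) (jp d) m) :
    LInd T (A.comp jp) (fun d => ep e (jp d)) W (LY A c (indW T act lin (W2 A c W))) := by
  intro p
  rw [mem_LY, mem_indW]
  have e1 : (fun d => (p.1 d, A c *ᵥ (p.1 d + p.2 d))) = fun d => th A c (p.1 d, p.2 d) := rfl
  rw [e1, Z1_th X, Z1_ap]
  have key : ∀ (k m : Fin n → F) (d : P), th A c (p.1 d, p.2 d) -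
      d0 (fun d => ac2 e c κ (KT.act (A.comp e)) (jp d)) (th A c (k, m)) d ∈ W2 A c W ↔
      p.1 d + ((A.comp jp) d *ᵥ (k + ep e (jp d) • m) + k) ∈ W ∧
        p.2 d + ((A.comp jp) d *ᵥ m + m) ∈ W := by
    intro k m d
    have h : d0 (fun d => ac2 e c κ (KT.act (A.comp e)) (jp d)) (th A c (k, m)) d =
        th A c (ap A (ep e) (jp d) (k, m) - (k, m)) := by
      rw [th_sub, ← ac2_th X]
      rfl
    rw [h, ← th_sub, th_W2 X]
    have h1 : ((p.1 d, p.2 d) - (ap A (ep e) (jp d) (k, m) - (k, m))).1 =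
        p.1 d + ((A.comp jp) d *ᵥ (k + ep e (jp d) • m) + k) := by
      rw [← sub_add' (n := n) (F := F) _ k, ← sub_add']
      rfl
    have h2 : ((p.1 d, p.2 d) - (ap A (ep e) (jp d) (k, m) - (k, m))).2 =
        p.2 d + ((A.comp jp) d *ᵥ m + m) := by
      rw [← sub_add' (n := n) (F := F) _ m, ← sub_add']
      rfl
    rw [h1, h2]
  refine and_congr Iff.rfl ⟨?_, ?_⟩
  · rintro ⟨m', hm⟩
    obtain ⟨u, rfl⟩ := th_surj (A := A) X m'
    exact ⟨u.1, u.2, fun d => (key u.1 u.2 d).1 (hm d)⟩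
  · rintro ⟨k, m, h⟩
    exact ⟨th A c (k, m), fun d => (key k m d).2 (h d)⟩

theorem finrank_two (X : Two e c κ)
    (act : IsAct fun d => ac2 e c κ (KT.act (A.comp e)) (jp d))
    (lin : ∀ (d : P) (a : F) m, ac2 e c κ (KT.act (A.comp e)) (jp d) (a • m) =
      a • ac2 e c κ (KT.act (A.comp e)) (jp d) m) :
    Module.finrank F (fixV act lin (W2 A c W)) =
      Module.finrank F (JW (A.comp jp) (fun d => ep e (jp d)) W) := by
  have h : fixV act lin (W2 A c W) =
      (JW (A.comp jp) (fun d => ep e (jp d)) W).map (thL A X : _ →ₗ[F] _) := by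
    ext v
    obtain ⟨u, rfl⟩ := th_surj (A := A) X v
    rw [mem_fixV, Submodule.mem_map]
    constructor
    · intro hv
      exact ⟨u, fun d => (fix_iff X d u).1 (hv d), rfl⟩
    · rintro ⟨u', hu', h⟩ d
      have h1 : u' = u := th_inj (A := A) X h
      rw [h1] at hu'
      exact (fix_iff X d u).2 (hu' d)
  rw [h]
  exact LinearEquiv.finrank_map_eq (thL A X) _

end Pool.Agent.Work.MP_787500_nt.OR
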