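import Mathlib
import Pool.Agent.Work.MP_787500_nt.OR.LiftM
/-!
# Module Val (size M-L): the value at the correction class for the induced condition

Let `(a, kc B) ∈ L`; `hL` gives `p, m` with `a1 d := a d + (B d (p + ε d • m) + p) ∈ W` and `kc d + (B d m + m) ∈ W`. Put `u = m + w₀`, `k d = k1 w₀ (B d)`: `kc d + (B d m + m) = k d + (B d u + u) =: y d` (`k1`), so
`u ∈ W0` (`k1_mem`), and `a1` is a lift of `y` with values in `W` (`lift_cob` for `m`, `a` is a lift of `kc`; the coboundary `B d p + p` is a cocycle). `char_of`: `M u z = lm z` for all `z`; `char_vec`: `finrank W0 + finrank (ker M) = lm u` in `F`.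
THE VALUE. Pointwise `ee (a s) (B s kc t) + ε s • mm (B t)` is the sum of
* `ee (B s p + p) (B s kc t)` (killed by `iv`: `inv_cob_left`, `kc_Z1`),
* the coboundary of `b s = ee (a1 s) (B s w₀)`, i.e. `b s + b t + b (s * t)`,
* `ε s • ee u (k t)`.
PROOF: `a s = a1 s + (B s p + p) + ε s • B s m`, `ee (ε s • B s m) (B s kc t) = ε s • ee m (kc t)`, `kc t = k t + (B t w₀ + w₀)`, `ee (a1 s) (B s k t) = 0` (both in `W`),
`ee (a1 s) (B s (B t w₀ + w₀)) = ee (a1 s) (B (s t) w₀) + b s`, `b (s * t) = ee (a1 s) (B (s t) w₀) + b t + ε s • ee (y t) (B t w₀)` (`a1 (s t) = a1 s + B s a1 t + ε s • B s y t`), and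
`ee m (kc t) + mm (B t) + ee (y t) (B t w₀) = ee u (k t)` by `mm_eq` (with `m = u + w₀`, `kc = k + B w₀ + w₀`, `y = k + B u + u`; all other terms cancel).
With the factor `α`: `iv` of the sum is `0 + 0 + hfT (α * lm u)` (`Lc.add`, `Lc.cob`, `FM.vlm`; the cocycle conditions: `cup11_Z2`, `eps_Z2` with `hom_ee`), and `hfT (α * (t : F)) = hf (trace α * t)` for the natural number `t`.
-/

set_option autoImplicit false
set_option linter.unusedSectionVars false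

namespace Pool.Agent.Work.MP_787500_nt.OR

open Matrix
open Pool.Agent.Work.MP_787500_nt.GP (A0 hf hf_add hf_zero hf_two hf_neg smul_hf IsAct d0 d1 d2 tw cup11
  cup02 EvPow)
open Pool.Agent.Work.MP_787500_nt.KR (FSys Sm1 Sm2 IsChar Smooth Z1 Z2 B2 LocH Pair LDual LocD zM
  cup11_Z2)
open Pool.Agent.Work.MP_787500_nt.KT hiding Str Rel Sel KH Ai IsP cc ff TT
open Pool.Agent.Work.MP_787500_nt.KS (hfT hfT_apply hfT_sq hfT_two hfT_neg smul_hfT hfT_nondeg hfT_smul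
  inv_zero smul_F dF1 rt rt_sq sm_eps sm1_one sm1_two zmod2_cases hfT_eps_sq exists_mul hfT_eq
  trace_trick sym_rank ann mem_ann finrank_ann ep)
open Pool.Agent.Work.MP_787500_nt.KI
open Pool.Agent.Work.MP_787500_nt.QS (Two ac2 be2 la2 Lag QM pB Zq)


variable {F : Type*} [Field F] [Finite F] [CharP F 2] [Algebra (ZMod 2) F] {n : ℕ} [Sy F n]
  {P : Type*} [Group P] {T : FSys P} {χ : P → ℤ_[2]} {iv : (P → P → A0) → A0} {ε : P → ZMod 2}
  {B : P →* Matrix (Fin n) (Fin n) F} {W : Submodule F (Fin n → F)} {w₀ : Fin n → F}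
  {L : Submodule F ((P → Fin n → F) × (P → Fin n → F))}
  {M : fixW B Set.univ W →ₗ[F] fixW B Set.univ W →ₗ[F] F} {lm : fixW B Set.univ W →ₗ[F] F}

theorem sub_add_U (x y : Fin n → F) : x + y + y = x := by
  rw [add_assoc, U_add_self, add_zero]

/-- `hfT` of a multiple of a natural number -/
theorem hfT_nat (α : F) (t : ℕ) :
    hfT (α * (t : F)) = hf (Algebra.trace (ZMod 2) F α * (t : ZMod 2)) := by
  have e : α * (t : F) = (t : ZMod 2) • α := by
    rw [Algebra.smul_def, map_natCast, mul_comm]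
  rw [e, hfT_smul, mul_comm]

theorem lval_ord (Lc : LocH T χ iv) (headd : ∀ g h, ε (g * h) = ε g + ε h) (hes : Sm1 T ε)
    (o : Ord B W) (hsm : Smooth T (KT.act B)) (hw₀ : ∀ x ∈ W, qq x = ee w₀ x ^ 2)
    (h : FM iv B ε W w₀ M lm) (hL : LInd T B ε W L) :
    LVal iv B ε L (Module.finrank F (fixW B Set.univ W) + Module.finrank F (LinearMap.ker M)) := by
  intro a ha α
  obtain ⟨⟨hkc, has, hal⟩, p, m, hpm⟩ := (hL _).1 ha
  dsimp only at hkc has hal hpm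
  have hP := pair_BU Lc.char o.sp hsm
  obtain ⟨U0, hU0⟩ : ∃ U0 : Fin n → F, U0 = m + w₀ := ⟨_, rfl⟩
  have hm : m = U0 + w₀ := by rw [hU0, sub_add_U]
  obtain ⟨k, hk⟩ : ∃ k : P → Fin n → F, ∀ d, k d = k1 w₀ (B d) := ⟨_, fun _ => rfl⟩
  have hkW : ∀ d, k d ∈ W := fun d => by
    rw [hk]
    exact k1_mem o.lg hw₀ (o.sp d) (o.st d)
  have hkk : ∀ d, kk (B d) = k d + (B d *ᵥ w₀ + w₀) := fun d => by
    rw [hk]
    unfold k1
    rw [sub_add_U]
  obtain ⟨y, hy⟩ : ∃ y : P → Fin n → F, ∀ d, y d = k d + (B d *ᵥ U0 + U0) := ⟨_, fun _ => rfl⟩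
  have hy2 : ∀ d, y d = kc B d + (B d *ᵥ m + m) := by
    intro d
    have e : kc B d = kk (B d) := rfl
    rw [hy, e, hkk, hU0, mulVec_add]
    have e2 := U_add_self (B d *ᵥ w₀ + w₀)
    have e3 : k d + (B d *ᵥ w₀ + w₀) + (B d *ᵥ m + m) = k d + (B d *ᵥ m + B d *ᵥ w₀ + (m + w₀)) := by
      abel
    rw [e3]
  have hyW : ∀ d, y d ∈ W := fun d => by
    rw [hy2]
    exact (hpm d).2
  have hUW : ∀ d, B d *ᵥ U0 + U0 ∈ W := fun d => by
    have e : B d *ᵥ U0 + U0 = k d + y d := by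
      rw [hy, ← add_assoc, U_add_self, zero_add]
    rw [e]
    exact W.add_mem (hkW d) (hyW d)
  obtain ⟨u, hu⟩ : ∃ u : fixW B Set.univ W, u.1 = U0 := ⟨⟨U0, fun d _ => hUW d⟩, rfl⟩
  obtain ⟨a1, ha1⟩ : ∃ a1 : P → Fin n → F, ∀ d, a1 d = a d + (B d *ᵥ (p + ε d • m) + p) :=
    ⟨_, fun _ => rfl⟩
  have ha1W : ∀ d, a1 d ∈ W := fun d => by
    rw [ha1]
    exact (hpm d).1
  obtain ⟨V, hV, hAV⟩ := smooth_A hsm
  have ha1s : Sm1 T a1 := by
    obtain ⟨W₁, hW₁, k1⟩ := has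
    obtain ⟨W₂, hW₂, k2⟩ := hes
    refine ⟨V ⊓ (W₁ ⊓ W₂), T.inf hV (T.inf hW₁ hW₂), fun g w hw => ?_⟩
    have e1 : a (g * w) = a g := k1 g w hw.2.1
    have e2 : B (g * w) = B g := by rw [map_mul, hAV w hw.1, mul_one]
    rw [ha1, ha1 g, e1, e2, k2 g w hw.2.2]
  have ha1l : IsLift (B : P → Matrix (Fin n) (Fin n) F) ε a1 y := by
    intro g h
    have e1 := hal g h
    rw [ha1, ha1 g, ha1 h, hy2 h, e1, headd, map_mul]
    simp only [mulVec_add, smul_add, add_smul, ← mulVec_mulVec]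
    ext i
    simp only [Pi.add_apply, Pi.smul_apply, smul_F, smul_U, mulVec_smul]
    linear_combination (norm := (ring_nf; reduce_mod_char!))
  have ha1l2 : IsLift (B : P → Matrix (Fin n) (Fin n) F) ε a1
      (fun g => k1 w₀ (B g) + (B g *ᵥ u.1 + u.1)) := by
    have e : (fun g => k1 w₀ (B g) + (B g *ᵥ u.1 + u.1)) = y := by
      funext g
      rw [hy, hk, hu]
    rw [e]
    exact ha1l
  have hchar := char_of Lc headd hes o hsm hw₀ h (u := u) ha1s ha1W ha1l2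
  have hcv := char_vec h hchar
  -- the identity
  have hiso : ∀ x ∈ W, ∀ x' ∈ W, ee x x' = 0 := fun x hx => (o.lg x).1 hx
  have key : ∀ s t, ee (a s) (B s *ᵥ kc B t) + ε s • mm (B t) =
      ee (B s *ᵥ p + p) (B s *ᵥ kc B t) + (ee (a1 s) (B s *ᵥ w₀) + ee (a1 t) (B t *ᵥ w₀) +
        ee (a1 (s * t)) (B (s * t) *ᵥ w₀)) + ε s • ee U0 (k t) := by
    intro s t
    have e : kc B t = kk (B t) := rfl
    have f1 : a s = a1 s + (B s *ᵥ p + p) + ε s • (B s *ᵥ m) := by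
      rw [ha1, mulVec_add, mulVec_smul]
      have e3 : a s + (B s *ᵥ p + ε s • B s *ᵥ m + p) + (B s *ᵥ p + p) + ε s • (B s *ᵥ m) =
          a s + ((B s *ᵥ p + p) + (B s *ᵥ p + p)) + (ε s • (B s *ᵥ m) + ε s • (B s *ᵥ m)) := by
        abel
      rw [e3, U_add_self, U_add_self, add_zero, add_zero]
    have f3 : ee (a1 s) (B s *ᵥ k t) = 0 := hiso _ (ha1W s) _ (o.st s _ (hkW t))
    have f4 : ee (a1 (s * t)) (B (s * t) *ᵥ w₀) = ee (a1 s) (B s *ᵥ (B t *ᵥ w₀)) +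
        ee (a1 t) (B t *ᵥ w₀) + ε s • ee (y t) (B t *ᵥ w₀) := by
      have e1 : a1 (s * t) = a1 s + B s *ᵥ a1 t + ε s • (B s *ᵥ y t) := ha1l s t
      rw [e1, map_mul, ← mulVec_mulVec, ee_add_left, ee_add_left, ee_mulVec (o.sp s), smul_U,
        ee_smul_left, ee_mulVec (o.sp s), smul_F]
    have f5 := mm_eq o.lg hw₀ (o.sp t) (o.st t)
    rw [← hk] at f5
    have f6 : ee (ε s • (B s *ᵥ m)) (B s *ᵥ kk (B t)) = ε s • ee m (kk (B t)) := by
      rw [smul_U, ee_smul_left, ee_mulVec (o.sp s), smul_F]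
    have f7 : ee (a1 s) (B s *ᵥ kk (B t)) = ee (a1 s) (B s *ᵥ (B t *ᵥ w₀)) +
        ee (a1 s) (B s *ᵥ w₀) := by
      rw [hkk, mulVec_add, mulVec_add, ee_add_right, ee_add_right, f3, zero_add]
    have f8 : ee m (kk (B t)) + mm (B t) = ee (y t) (B t *ᵥ w₀) + ee U0 (k t) := by
      rw [f5, hkk, hy, hm]
      simp only [ee_add_left, ee_add_right, ee_self, ee_mulVec (o.sp t), ee_comm w₀ U0]
      linear_combination (norm := (ring_nf; reduce_mod_char!))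
    rw [e, f4]
    conv_lhs => rw [f1]
    rw [ee_add_left, ee_add_left, f6, f7]
    have f9 : ε s • ee m (kk (B t)) + ε s • mm (B t) =
        ε s • ee (y t) (B t *ᵥ w₀) + ε s • ee U0 (k t) := by
      rw [← smul_add, f8, smul_add]
    linear_combination (norm := (ring_nf; reduce_mod_char!)) f9
  -- the value
  have hbs : Sm1 T fun g => α * ee (a1 g) (B g *ᵥ w₀) := by
    obtain ⟨W₁, hW₁, k1⟩ := ha1s
    refine ⟨V ⊓ W₁, T.inf hV hW₁, fun g w hw => ?_⟩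
    have e2 : B (g * w) = B g := by rw [map_mul, hAV w hw.1, mul_one]
    beta_reduce
    rw [k1 g w hw.2, e2]
  have hbs' : Sm1 T fun g => hfT (α * ee (a1 g) (B g *ᵥ w₀)) := sm1_one hbs hfT
  have hcob : ∀ g, (α • fun g => B g *ᵥ p + p) g = B g *ᵥ (α • p) + α • p := fun g => by
    rw [Pi.smul_apply, mulVec_smul, smul_add]
  have hdp : Z1 T (KT.act B) (α • fun g => B g *ᵥ p + p) :=
    (cocS T (B : P → Matrix (Fin n) (Fin n) F)).smul_mem α (cob_Z1 hsm p)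
  have hZ3 : Z2 T (tw χ) (fun s t => hfT (ε s • (α * ee u.1 (k1 w₀ (B t))))) := by
    have e1 := hom_ee (T := T) o (z := u.1) (fun g => u.2 g trivial) (k1_Z1 (w₀ := w₀) o hsm)
      (fun g => k1_mem o.lg hw₀ (o.sp g) (o.st g))
    exact eps_Z2 Lc.char headd hes ((homS F T).smul_mem α e1)
  have e1 : (fun s t => hfT (α * ee (a s) (B s *ᵥ kc B t) + ε s • (α * mm (B t)))) =
      fun s t => (cup11 (KT.act B) BU (α • fun g => B g *ᵥ p + p) (kc B) s t +
        d1 (tw χ) (fun g => hfT (α * ee (a1 g) (B g *ᵥ w₀))) s t) +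
        hfT (ε s • (α * ee u.1 (k1 w₀ (B t)))) := by
    funext s t
    show _ = (hfT (ee (α • (B s *ᵥ p + p)) (B s *ᵥ kc B t)) +
      (hfT (α * ee (a1 s) (B s *ᵥ w₀)) + χ s • hfT (α * ee (a1 t) (B t *ᵥ w₀)) -
        hfT (α * ee (a1 (s * t)) (B (s * t) *ᵥ w₀)))) + _
    rw [smul_hfT (Lc.char.odd s), sub_eq_add_neg, hfT_neg, ← map_add, ← map_add, ← map_add,
      ← map_add, ee_smul_left, hu, ← hk]
    congr 1
    have e3 := key s t
    have e4 : ε s • (α * mm (B t)) = α * (ε s • mm (B t)) := by rw [mul_smul_comm]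
    have e5 : ε s • (α * ee U0 (k t)) = α * (ε s • ee U0 (k t)) := by rw [mul_smul_comm]
    rw [e4, e5, ← mul_add, e3]
    ring
  rw [e1, Lc.add _ _ (KR.Z2.add (KR.isAct_tw Lc.char) (cup11_Z2 hP hdp hkc)
    (KR.d1_tw_Z2 Lc.char hbs')) hZ3, Lc.add _ _ (cup11_Z2 hP hdp hkc) (KR.d1_tw_Z2 Lc.char hbs'),
    Lc.cob _ hbs', inv_cob_left Lc o.sp hsm ⟨α • p, hcob⟩ hkc, h.vlm α u, add_zero, zero_add,
    ← hfT_nat, Nat.cast_add, hcv]

end Pool.Agent.Work.MP_787500_nt.OR
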