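import Mathlib
import Pool.Agent.Work.MP_787500_nt.OR.Cnt
import Pool.Agent.Work.MP_787500_nt.OR.Val
import Pool.Agent.Work.MP_787500_nt.OR.TwoC
/-!
# Module Main (size S): THE CONTRIBUTION of a condition, computed with the induced condition

`LocPar` with `Y₀ = indW .. (W2 A c W)`: `lag_two`; `L = LY A c Y₀`, `lInd_two`; `LKr` from `lkr_of_lag`; `exists_w0`, `exists_FM`; `lval_ord`, `cnt_main`; `finrank_two`;
`m + t + finrank JW` is even for `m = finrank (ker M) + finrank W0 - finrank JW`, `t = finrank W0 + finrank (ker M)`.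
-/

set_option autoImplicit false
set_option linter.unusedSectionVars false

namespace Pool.Agent.Work.MP_787500_nt.OR

open Matrix
open Pool.Agent.Work.MP_787500_nt.GP (A0 hf hf_add hf_zero hf_two hf_neg smul_hf IsAct d0 d1 d2 tw cup11
  cup02 EvPow)
open Pool.Agent.Work.MP_787500_nt.KR (FSys Sm1 Sm2 IsChar Smooth Z1 Z2 B2 LocH Pair LDual LocD zM
  cup11_Z2 SDualF)
open Pool.Agent.Work.MP_787500_nt.KT hiding Str Rel Sel KH Ai IsP cc ff TT
open Pool.Agent.Work.MP_787500_nt.KS (hfT hfT_apply hfT_sq hfT_two hfT_neg smul_hfT hfT_nondeg hfT_smul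
  inv_zero smul_F dF1 rt rt_sq sm_eps sm1_one sm1_two zmod2_cases hfT_eps_sq exists_mul hfT_eq
  trace_trick sym_rank ann mem_ann finrank_ann ep)
open Pool.Agent.Work.MP_787500_nt.KI
open Pool.Agent.Work.MP_787500_nt.QS (Two ac2 be2 la2 Lag QM pB Zq)


universe v

variable {F : Type v} [Field F] [Finite F] [CharP F 2] [Algebra (ZMod 2) F] {n : ℕ} [Sy F n]
  {G Γ : Type*} [Group G] [Group Γ] {e : G →* Γ} {c : Γ} {κ : G →* G}
  {A : Γ →* Matrix (Fin n) (Fin n) F} {P : Type*} [Group P] {T : FSys P} {jp : P →* Γ}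
  {χ : P → ℤ_[2]} {χq : Γ → ℤ_[2]} {iv : (P → P → A0) → A0} {W : Submodule F (Fin n → F)}

theorem locPar_ord (X : Two e c κ) (p : LocD.{v} T (fun d => χq (jp d)) iv) (hsp : ∀ g, IsSp (A g))
    (hsm : Smooth T (KT.act (A.comp jp))) (hes : Sm1 T fun d => ep e (jp d))
    (ld : LDual T iv (KT.act (A.comp jp)) (KT.act (A.comp jp))
      (BU : (Fin n → F) →+ (Fin n → F) →+ A0)) (o : Ord (A.comp jp) W)
    (hq : QM T (fun d => χq (jp d)) F (fun d => ac2 e c κ (KT.act (A.comp e)) (jp d))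
      (be2 (bC A c)) (fun (a : F) d => la2 e c κ (KT.act (A.comp e)) (bC A c) a (jp d)))
    {Y : Submodule F (P → (Fin n → F) × (Fin n → F))} {δ : ℕ}
    (hev : Even (Module.finrank F (fixV hq.act hq.lin (W2 A c W)) + Module.finrank F Y +
      Module.finrank F ↥(Y ⊓ indW T hq.act hq.lin (W2 A c W)) + δ)) :
    LocPar T jp iv e c κ A Y δ := by
  have Lc := p.toLocH
  have hadd : ∀ g h, ep e (jp (g * h)) = ep e (jp g) + ep e (jp h) := fun g h => by
    rw [map_mul, QP.ep_add2 X]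
  have hY₀ := lag_two X p o hq
  have hL := lInd_two (T := T) (W := W) X hq.act hq.lin
  have hk := lkr_of_lag X Lc hsp hsm hes ld hY₀
  obtain ⟨w₀, hw₀⟩ := exists_w0 o.lg
  obtain ⟨M, lm, h⟩ := exists_FM Lc hadd hes o hsm hw₀
  have od := od_of p o hsm
  have h1 := lval_ord Lc hadd hes o hsm hw₀ h hL
  have h2 := cnt_main Lc hadd hes o hsm ld od h hL hk
  have h3 := finrank_two (W := W) X hq.act hq.lin
  refine ⟨_, _, _, hY₀, h1, h2, ?_⟩
  rw [← h3]
  obtain ⟨r, hr⟩ := hev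
  have hr' : (Module.finrank F (fixV hq.act hq.lin (W2 A c W)) : ℤ) + Module.finrank F Y +
      Module.finrank F ↥(Y ⊓ indW T hq.act hq.lin (W2 A c W)) + δ = r + r := by
    exact_mod_cast hr
  refine ⟨Module.finrank F (LinearMap.ker M) +
    Module.finrank F (fixW (A.comp jp) Set.univ W) -
      Module.finrank F (fixV hq.act hq.lin (W2 A c W)) + r, ?_⟩
  push_cast
  linarith

end Pool.Agent.Work.MP_787500_nt.OR
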