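import Mathlib
import Pool.Agent.Work.MP_787500_nt.OR.Main
import Pool.Agent.Work.MP_787500_nt.KI.LocM
/-!
# Module Fin (size M): THE CONTRIBUTION for `M × M`

`M2 hC Mp = {(x, x1) : x ∈ Mp, C x1 ∈ Mp}`. In coordinates `L : M ≃+ F ^ n`, `W = L Mp` (`SubF`, an `F`-subspace by `hc.iso`), `Ord (A.comp jp) W` (`hc.ae`, `hc.ac`, `p.two.cases (jp d)`; `IsLg`: `hc.fr`, `hfT_nondeg`
with `O`-multiples, `algebraMap O F` surjective), `W2 A c W = (f2 L) (M2 hC Mp)`. `qm_tra` (for `p.qm h`) gives the quadratic module; `tra_indW`, `card_tra`, `tra_inf`, `fixV` has the same number of elements in the coordinates;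
`Module.natCard_eq_pow_finrank` turns `EvPow` into `Even` (finite: `p.ldM h`).
* `locM_ord`: `locPar_ord`. `card_fixV`: fibres of `q`. `locM_ord1`: `Nat.card (M2 hC Mp) = Nat.card Mp ^ 2` is an even power of `Nat.card F` (`C` is bijective; `Mp ≃ W`), so `locM_ord` and `card_fixV`.
-/

set_option autoImplicit false
set_option linter.unusedSectionVars false

namespace Pool.Agent.Work.MP_787500_nt.OR

open Matrix
open Pool.Agent.Work.MP_787500_nt.GP (A0 hf hf_add hf_zero hf_two hf_neg smul_hf IsAct d0 d1 d2 tw cup11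
  cup02 EvPow)
open Pool.Agent.Work.MP_787500_nt.KR (FSys Sm1 Sm2 IsChar Smooth Z1 Z2 B2 LocH Pair LDual LocD zM
  cup11_Z2 SDualF)
open Pool.Agent.Work.MP_787500_nt.KT hiding Str Rel Sel KH Ai IsP cc ff TT
open Pool.Agent.Work.MP_787500_nt.KS (hfT hfT_apply hfT_sq hfT_two hfT_neg smul_hfT hfT_nondeg hfT_smul
  inv_zero smul_F dF1 rt rt_sq sm_eps sm1_one sm1_two zmod2_cases hfT_eps_sq exists_mul hfT_eq
  trace_trick sym_rank ann mem_ann finrank_ann ep)
open Pool.Agent.Work.MP_787500_nt.KI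
open Pool.Agent.Work.MP_787500_nt.QS (Two ac2 be2 la2 Lag QM pB Zq)
open Pool.Agent.Work.MP_787500_nt.QP (InvC)


universe v

section gen

variable {P : Type*} [Group P] {T : FSys P} {O : Type*} [CommRing O] {V : Type*} [AddCommGroup V]
  [Module O V] {σ : P → V → V}

/-- the fixed vectors of the quotient -/
theorem card_fixV (act : IsAct σ) (lin : ∀ g (a : O) m, σ g (a • m) = a • σ g m)
    (W : Submodule O V) {Q : Type*} [AddCommGroup Q] {ω : P → Q → Q} (q : V →+ Q)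
    (hq : Function.Surjective q) (hk : ∀ v, q v = 0 ↔ v ∈ W) (hω : ∀ d v, q (σ d v) = ω d (q v)) :
    Nat.card (fixV act lin W) = Nat.card W * Nat.card {x : Q // ∀ d, ω d x = x} := by
  obtain ⟨s, hs⟩ := hq.hasRightInverse
  have hfix : ∀ v, v ∈ fixV act lin W ↔ ∀ d, ω d (q v) = q v := fun v => by
    rw [mem_fixV]
    refine forall_congr' fun d => ?_
    rw [← hk, map_sub, hω, sub_eq_zero]
  rw [← Nat.card_prod]
  refine Nat.card_congr
    { toFun := fun v => (⟨v.1 - s (q v.1), ?_⟩, ⟨q v.1, (hfix v.1).1 v.2⟩)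
      invFun := fun z => ⟨s z.2.1 + z.1.1, ?_⟩
      left_inv := fun v => Subtype.ext ?_
      right_inv := fun z => ?_ }
  · rw [← hk, map_sub, hs, sub_self]
  · rw [hfix, map_add, hs, (hk _).2 z.1.2, add_zero]
    exact z.2.2
  · show s (q v.1) + (v.1 - s (q v.1)) = v.1
    abel
  · have e : q (s z.2.1 + z.1.1) = z.2.1 := by
      rw [map_add, hs, (hk _).2 z.1.2, add_zero]
    refine Prod.ext (Subtype.ext ?_) (Subtype.ext e)
    show s z.2.1 + z.1.1 - s (q (s z.2.1 + z.1.1)) = z.1.1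
    rw [e]
    abel

end gen

section M

variable {G Γ : Type*} [Group G] [Group Γ] {S : FSys G} {Sq : FSys Γ} {χ : G → ℤ_[2]}
  {χq : Γ → ℤ_[2]} {e : G →* Γ} {c : Γ} {κ : G →* G} {P : Type*} [Group P] {T : FSys P}
  {jp : P →* Γ} {iv : (P → P → A0) → A0} {F : Type v} [Field F] [Finite F] [CharP F 2]
  [Algebra (ZMod 2) F] {M : Type v} [AddCommGroup M] [Finite M] {Θ : Set (G × G)} {O : Type*}
  [CommRing O] [Algebra O F] [Module O M] {ρ : G → M → M} {b : M →+ M →+ A0} {C : M → M}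

/-- the pairs `(x, x1)` with `x` and `C x1` in `Mp` -/
def M2 (hC : InvC κ O ρ b C) (Mp : Submodule O M) : Submodule O (M × M) where
  carrier := {v | v.1 ∈ Mp ∧ C v.2 ∈ Mp}
  add_mem' := fun {v w} hv hw => ⟨Mp.add_mem hv.1 hw.1, by
    show C (v.2 + w.2) ∈ Mp
    rw [hC.add]
    exact Mp.add_mem hv.2 hw.2⟩
  zero_mem' := ⟨Mp.zero_mem, by
    show C 0 ∈ Mp
    have h : C ((0 : O) • (0 : M)) = (0 : O) • C 0 := hC.lin 0 0
    rw [zero_smul, zero_smul] at h
    rw [h]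
    exact Mp.zero_mem⟩
  smul_mem' := fun a v hv => ⟨Mp.smul_mem a hv.1, by
    show C (a • v.2) ∈ Mp
    rw [hC.lin]
    exact Mp.smul_mem a hv.2⟩

theorem mem_M2 {hC : InvC κ O ρ b C} {Mp : Submodule O M} {v : M × M} :
    v ∈ M2 hC Mp ↔ v.1 ∈ Mp ∧ C v.2 ∈ Mp := Iff.rfl

/-- `Mp` in the coordinates -/
private def Wc {n : ℕ} {L : M ≃+ (Fin n → F)} (hL : SIso O F L) (Mp : Submodule O M) :
    Submodule F (Fin n → F) where
  carrier := {x | L.symm x ∈ Mp}
  add_mem' := fun {x y} hx hy => by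
    show L.symm (x + y) ∈ Mp
    rw [map_add]
    exact Mp.add_mem hx hy
  zero_mem' := by
    show L.symm 0 ∈ Mp
    rw [map_zero]
    exact Mp.zero_mem
  smul_mem' := fun a x hx => by
    obtain ⟨a, rfl⟩ := hL.surj a
    show L.symm (algebraMap O F a • x) ∈ Mp
    rw [hL.symm_smul]
    exact Mp.smul_mem a hx

private theorem mem_Wc {n : ℕ} {L : M ≃+ (Fin n → F)} (hL : SIso O F L) {Mp : Submodule O M}
    {m : M} : L m ∈ Wc hL Mp ↔ m ∈ Mp := by
  show L.symm (L m) ∈ Mp ↔ _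
  rw [L.symm_apply_apply]

private theorem card_Wc {n : ℕ} {L : M ≃+ (Fin n → F)} (hL : SIso O F L) (Mp : Submodule O M) :
    Nat.card (Wc hL Mp) = Nat.card Mp :=
  (Nat.card_congr (L.toEquiv.subtypeEquiv fun _ => (mem_Wc hL).symm)).symm

private theorem mem_W2c {n : ℕ} [Sy F n] {L : M ≃+ (Fin n → F)}
    {A : Γ →* Matrix (Fin n) (Fin n) F} (hc : Crd e c O ρ b C L A) (hC : InvC κ O ρ b C)
    {Mp : Submodule O M} {v : M × M} : f2 L v ∈ W2 A c (Wc hc.iso Mp) ↔ v ∈ M2 hC Mp := by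
  rw [mem_W2, mem_M2, f2_apply, hc.ac, mem_Wc, mem_Wc]

private theorem tra_indW {V V' : Type*} [AddCommGroup V] [AddCommGroup V'] [Module O V]
    [Module F V'] {f : V ≃+ V'} (hf : SIso O F f) {σ : P → V → V} {σ' : P → V' → V'}
    (hact : ∀ g v, f (σ g v) = σ' g (f v)) {act : IsAct σ}
    {lin : ∀ g (a : O) m, σ g (a • m) = a • σ g m} {act' : IsAct σ'}
    {lin' : ∀ g (a : F) m, σ' g (a • m) = a • σ' g m} {N : Submodule O V} {N' : Submodule F V'}
    (hN : ∀ v, f v ∈ N' ↔ v ∈ N) : tra hf (indW T act lin N) = indW T act' lin' N' := by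
  ext x
  obtain ⟨x, rfl⟩ : ∃ y : P → V, x = fun d => f (y d) :=
    ⟨fun d => f.symm (x d), funext fun d => (f.apply_symm_apply _).symm⟩
  rw [map_tra, mem_indW, mem_indW, z1_tra (f := f) (ρ := σ) hact]
  refine and_congr Iff.rfl ⟨?_, ?_⟩
  · rintro ⟨m, hm⟩
    refine ⟨f m, fun d => ?_⟩
    have e1 : f (x d) - d0 σ' (f m) d = f (x d - d0 σ m d) := by
      simp only [d0, map_sub, hact]
    rw [e1, hN]
    exact hm d
  · rintro ⟨m, hm⟩
    obtain ⟨m, rfl⟩ := f.surjective m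
    refine ⟨m, fun d => ?_⟩
    have e1 : f (x d) - d0 σ' (f m) d = f (x d - d0 σ m d) := by
      simp only [d0, map_sub, hact]
    rw [← hN, ← e1]
    exact hm d

private theorem card_fixV_tra {V V' : Type*} [AddCommGroup V] [AddCommGroup V'] [Module O V]
    [Module F V'] {f : V ≃+ V'} {σ : P → V → V} {σ' : P → V' → V'}
    (hact : ∀ g v, f (σ g v) = σ' g (f v)) {act : IsAct σ}
    {lin : ∀ g (a : O) m, σ g (a • m) = a • σ g m} {act' : IsAct σ'}
    {lin' : ∀ g (a : F) m, σ' g (a • m) = a • σ' g m} {N : Submodule O V} {N' : Submodule F V'}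
    (hN : ∀ v, f v ∈ N' ↔ v ∈ N) :
    Nat.card (fixV act' lin' N') = Nat.card (fixV act lin N) :=
  (Nat.card_congr (f.toEquiv.subtypeEquiv fun v => by
    show v ∈ fixV act lin N ↔ f v ∈ fixV act' lin' N'
    rw [mem_fixV, mem_fixV]
    refine forall_congr' fun d => ?_
    rw [← hN, map_sub, hact])).symm

/-- THE CONTRIBUTION of a condition `Y` at a place with a stable Lagrangian submodule `Mp` -/
theorem locM_ord (p : PlQ.{v} S Sq χ χq e c κ T jp iv) (h : SDualF S χ κ Θ O ρ b)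
    (hC : InvC κ O ρ b C) {Mp : Submodule O M} (h1 : ∀ d g, e g = jp d → ∀ m ∈ Mp, ρ g m ∈ Mp)
    (h2 : ∀ d g, e g * c = jp d → ∀ m ∈ Mp, ρ g (C m) ∈ Mp)
    (h3 : ∀ m, m ∈ Mp ↔ ∀ m1 ∈ Mp, b m (C m1) = 0) {Y : Submodule O (P → M × M)} {δ : ℕ}
    (hY : ∀ x ∈ Y, Z1 T (fun d => ac2 e c κ ρ (jp d)) x)
    (hev : EvPow (Nat.card F) (Nat.card Y *
      Nat.card ↥(Y ⊓ indW T (p.qm h).act (p.qm h).lin (M2 hC Mp)) *
      Nat.card (fixV (p.qm h).act (p.qm h).lin (M2 hC Mp)) * Nat.card F ^ δ)) :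
    LocM T jp iv e c κ F ρ b C Y δ := by
  intro n iS L A hc
  have X := p.two
  have hq1 : 1 < Nat.card F := Finite.one_lt_card
  have hact2 : ∀ (d : P) (v : M × M), f2 L (ac2 e c κ ρ (jp d) v) =
      ac2 e c κ (KT.act (A.comp e)) (jp d) (f2 L v) := fun d v => hc.act2 X (jp d) v
  have hq : QM T (fun d => χq (jp d)) F (fun d => ac2 e c κ (KT.act (A.comp e)) (jp d))
      (be2 (bC A c)) (fun (a : F) d => la2 e c κ (KT.act (A.comp e)) (bC A c) a (jp d)) :=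
    qm_tra (siso_f2 hc.iso) hact2 hc.be (fun a d v => hc.la X a (jp d) v) (p.qm h)
  -- the subspace
  have o : Ord (A.comp jp) (Wc hc.iso Mp) := by
    refine ⟨fun g => hc.sp _, fun d x hx => ?_, fun x => ?_⟩
    · obtain ⟨m, rfl⟩ := L.surjective x
      rw [mem_Wc] at hx
      rw [MonoidHom.comp_apply]
      rcases X.cases (jp d) with ⟨g, hg⟩ | ⟨g, hg⟩
      · rw [← hg, hc.ae, mem_Wc]
        exact h1 d g hg m hx
      · rw [← hg, map_mul, ← mulVec_mulVec, hc.ac, hc.ae, mem_Wc]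
        exact h2 d g hg m hx
    · obtain ⟨m, rfl⟩ := L.surjective x
      have hb : ∀ m m1 : M, b m (C m1) = hfT (ee (L m) (L m1)) := fun m m1 => by
        rw [hc.fr, bC_apply, hc.ac, hC.sq]
      rw [mem_Wc, h3]
      constructor
      · intro hm y hy
        obtain ⟨m1, rfl⟩ := L.surjective y
        rw [mem_Wc] at hy
        refine hfT_nondeg fun a => ?_
        obtain ⟨a, rfl⟩ := hc.iso.surj a
        rw [← ee_smul_right, ← hc.iso.smul, ← hb]
        exact hm _ (Mp.smul_mem a hy)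
      · intro hm m1 hm1
        rw [hb, hm _ ((mem_Wc hc.iso).2 hm1), map_zero]
  have hN : ∀ v : M × M, f2 L v ∈ W2 A c (Wc hc.iso Mp) ↔ v ∈ M2 hC Mp := fun v => mem_W2c hc hC
  refine locPar_ord X p.loc hc.sp (p.smA hc h.sm) p.esm (p.ldA hc h.sm) o hq ?_
  have e1 : tra (siso_f2 hc.iso) (indW T (p.qm h).act (p.qm h).lin (M2 hC Mp)) =
      indW T hq.act hq.lin (W2 A c (Wc hc.iso Mp)) := tra_indW (siso_f2 hc.iso) hact2 hN
  have e2 : Nat.card (fixV hq.act hq.lin (W2 A c (Wc hc.iso Mp))) =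
      Nat.card (fixV (p.qm h).act (p.qm h).lin (M2 hC Mp)) := card_fixV_tra hact2 hN
  have e3 : Nat.card ↥(tra (siso_f2 hc.iso) Y ⊓ indW T hq.act hq.lin (W2 A c (Wc hc.iso Mp))) =
      Nat.card ↥(Y ⊓ indW T (p.qm h).act (p.qm h).lin (M2 hC Mp)) := by
    rw [← e1, ← tra_inf, card_tra]
  have hfY : Finite Y := by
    have hfin := (p.ldM h).fin
    exact Finite.of_injective (fun x : Y => (⟨x.1, hY x.1 x.2⟩ :
      {x : P → M × M // Z1 T (fun d => ac2 e c κ ρ (jp d)) x})) fun x y hxy => Subtype.ext (by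
        simpa using hxy)
  have hfY' : Finite (tra (siso_f2 hc.iso) Y) := by
    refine Nat.finite_of_card_ne_zero ?_
    rw [card_tra]
    exact Nat.card_pos.ne'
  have hfI : Finite ↥(tra (siso_f2 hc.iso) Y ⊓
      indW T hq.act hq.lin (W2 A c (Wc hc.iso Mp))) :=
    Finite.of_injective (fun x => (⟨x.1, x.2.1⟩ : tra (siso_f2 hc.iso) Y)) fun x y hxy =>
      Subtype.ext (by simpa using hxy)
  rw [← e2, ← e3, ← card_tra (siso_f2 hc.iso) Y,
    Module.natCard_eq_pow_finrank (K := F) (V := tra (siso_f2 hc.iso) Y),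
    Module.natCard_eq_pow_finrank (K := F) (V := ↥(tra (siso_f2 hc.iso) Y ⊓
      indW T hq.act hq.lin (W2 A c (Wc hc.iso Mp)))),
    Module.natCard_eq_pow_finrank (K := F) (V := fixV hq.act hq.lin (W2 A c (Wc hc.iso Mp))),
    ← pow_add, ← pow_add, ← pow_add] at hev
  obtain ⟨m, hm⟩ := hev
  have h4 := Nat.pow_right_injective hq1 hm
  refine ⟨m, ?_⟩
  have h5 : Module.finrank F (tra (siso_f2 hc.iso) Y) +
      Module.finrank F ↥(tra (siso_f2 hc.iso) Y ⊓
        indW T hq.act hq.lin (W2 A c (Wc hc.iso Mp))) +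
      Module.finrank F (fixV hq.act hq.lin (W2 A c (Wc hc.iso Mp))) + δ = 2 * m := h4
  omega

/-- the same with the fixed vectors of the quotient -/
theorem locM_ord1 (p : PlQ.{v} S Sq χ χq e c κ T jp iv) (h : SDualF S χ κ Θ O ρ b)
    (hC : InvC κ O ρ b C) {Mp : Submodule O M} (h1 : ∀ d g, e g = jp d → ∀ m ∈ Mp, ρ g m ∈ Mp)
    (h2 : ∀ d g, e g * c = jp d → ∀ m ∈ Mp, ρ g (C m) ∈ Mp)
    (h3 : ∀ m, m ∈ Mp ↔ ∀ m1 ∈ Mp, b m (C m1) = 0) {Y Yo : Submodule O (P → M × M)} {δ : ℕ}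
    (hY : ∀ x ∈ Y, Z1 T (fun d => ac2 e c κ ρ (jp d)) x)
    (hYo : ∀ x, x ∈ Yo ↔ Z1 T (fun d => ac2 e c κ ρ (jp d)) x ∧
      ∃ m, ∀ d, x d - d0 (fun d => ac2 e c κ ρ (jp d)) m d ∈ M2 hC Mp)
    {Q : Type*} [AddCommGroup Q] {ω : P → Q → Q} (q : M × M →+ Q) (hq : Function.Surjective q)
    (hk : ∀ v, q v = 0 ↔ v ∈ M2 hC Mp) (hω : ∀ d v, q (ac2 e c κ ρ (jp d) v) = ω d (q v))
    (hev : EvPow (Nat.card F) (Nat.card Y * Nat.card ↥(Y ⊓ Yo) *
      Nat.card {x : Q // ∀ d, ω d x = x} * Nat.card F ^ δ)) :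
    LocM T jp iv e c κ F ρ b C Y δ := by
  intro n iS L A hc
  have e1 : Yo = indW T (p.qm h).act (p.qm h).lin (M2 hC Mp) := by
    ext x
    rw [hYo, mem_indW]
  have e2 : Nat.card (M2 hC Mp) = Nat.card Mp * Nat.card Mp := by
    rw [← Nat.card_prod]
    refine Nat.card_congr
      { toFun := fun v => (⟨v.1.1, v.2.1⟩, ⟨C v.1.2, v.2.2⟩)
        invFun := fun z => ⟨(z.1.1, C z.2.1), z.1.2, by
          show C (C z.2.1) ∈ Mp
          rw [hC.sq]
          exact z.2.2⟩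
        left_inv := fun v => Subtype.ext (Prod.ext rfl (hC.sq _))
        right_inv := fun z => Prod.ext rfl (Subtype.ext (hC.sq _)) }
  have e3 : Nat.card Mp = Nat.card F ^ Module.finrank F (Wc hc.iso Mp) := by
    rw [← card_Wc hc.iso Mp, Module.natCard_eq_pow_finrank (K := F)]
  refine locM_ord p h hC h1 h2 h3 hY ?_ n iS L A hc
  rw [← e1, card_fixV (p.qm h).act (p.qm h).lin (M2 hC Mp) q hq hk hω, e2, e3]
  obtain ⟨m, hm⟩ := hev
  refine ⟨m + Module.finrank F (Wc hc.iso Mp), ?_⟩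
  have e4 : Nat.card Y * Nat.card ↥(Y ⊓ Yo) *
      (Nat.card F ^ Module.finrank F (Wc hc.iso Mp) * Nat.card F ^ Module.finrank F (Wc hc.iso Mp) *
        Nat.card {x : Q // ∀ d, ω d x = x}) * Nat.card F ^ δ =
      (Nat.card Y * Nat.card ↥(Y ⊓ Yo) * Nat.card {x : Q // ∀ d, ω d x = x} *
        Nat.card F ^ δ) * (Nat.card F ^ Module.finrank F (Wc hc.iso Mp) *
          Nat.card F ^ Module.finrank F (Wc hc.iso Mp)) := by ring
  rw [e4, hm, ← pow_add, ← pow_add]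
  congr 1
  ring

end M

end Pool.Agent.Work.MP_787500_nt.OR
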